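import Pool.Agent.Lib.H45EHM.Base

/-!
# Pairwise disjoint unbounded subsets of `κ`
-/

set_option autoImplicit false

open Cardinal Order Set

universe u

namespace Pool.Agent.Lib.H45EHM

variable {κ : Cardinal.{u}}

noncomputable def seq2 (G : Ordinal.{u} → Ordinal.{u} → Ordinal.{u}) (i : Ordinal.{u}) :
    Ordinal.{u} := G i (⨆ j : Set.Iio i, (seq2 G j.1 + 1))
termination_by i
decreasing_by exact j.2

/-- A strictly increasing choice. -/
theorem exists_increasing (hκ : κ.IsRegular) (A : Ordinal.{u} → Set Ordinal.{u})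
    (hA : ∀ i < κ.ord, ∀ a < κ.ord, ∃ y ∈ A i, a < y ∧ y < κ.ord) :
    ∃ f : Ordinal.{u} → Ordinal.{u}, (∀ i < κ.ord, f i < κ.ord ∧ f i ∈ A i) ∧
      ∀ i j, i < j → j < κ.ord → f i < f j := by
  have h1 : ∀ i a, ∃ y, i < κ.ord → a < κ.ord → (y ∈ A i ∧ a < y ∧ y < κ.ord) := by
    intro i a
    by_cases hi : i < κ.ord
    · by_cases ha : a < κ.ord
      · obtain ⟨y, hy⟩ := hA i hi a ha
        exact ⟨y, fun _ _ => hy⟩
      · exact ⟨0, fun _ h => absurd h ha⟩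
    · exact ⟨0, fun h => absurd h hi⟩
  choose G hG using h1
  have hlt : ∀ i < κ.ord, seq2 G i < κ.ord ∧ (⨆ j : Set.Iio i, (seq2 G j.1 + 1)) < κ.ord := by
    intro i
    induction i using WellFoundedLT.induction with
    | ind i ih =>
      intro hi
      obtain ⟨b, hb, hb'⟩ := bound hκ (fun j : Set.Iio i => seq2 G j.1 + 1) (mk_Iio_lt i hi)
        fun j => succ_lt hκ (ih j.1 j.2 (lt_trans j.2 hi)).1
      have h2 := (Ordinal.iSup_le hb').trans_lt hb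
      refine ⟨?_, h2⟩
      rw [seq2]
      exact (hG i _ hi h2).2.2
  refine ⟨seq2 G, fun i hi => ⟨(hlt i hi).1, ?_⟩, ?_⟩
  · rw [seq2]
    exact (hG i _ hi (hlt i hi).2).1
  · intro i j hij hj
    have h3 : seq2 G j = G j (⨆ i : Set.Iio j, (seq2 G i.1 + 1)) := by rw [seq2]
    rw [h3]
    refine lt_of_lt_of_le ?_ (hG j _ hj (hlt j hj).2).2.1.le
    exact (Order.lt_add_one_iff.2 le_rfl).trans_le
      (Ordinal.le_iSup (fun i : Set.Iio j => seq2 G i.1 + 1) ⟨i, hij⟩)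

theorem exists_enum (hκ : κ.IsRegular) :
    ∃ E : Ordinal.{u} → Ordinal.{u} × List Ordinal.{u},
      ∀ a < κ.ord, ∀ q : List Ordinal.{u}, (∀ t ∈ q, t < κ.ord) → ∃ i < κ.ord, E i = (a, q) := by
  have h1 : #(Set.Iio (κ.ord : Ordinal.{u})) = Cardinal.lift.{u + 1} κ := by
    rw [mk_Iio_ordinal, Cardinal.card_ord]
  have h2 : ℵ₀ ≤ #(Set.Iio (κ.ord : Ordinal.{u})) := by
    rw [h1, Cardinal.aleph0_le_lift]
    exact hκ.aleph0_le
  have : Infinite (Set.Iio (κ.ord : Ordinal.{u})) := Cardinal.infinite_iff.2 h2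
  have h3 : #(Set.Iio (κ.ord : Ordinal.{u})) =
      #(Set.Iio (κ.ord : Ordinal.{u}) × List (Set.Iio (κ.ord : Ordinal.{u}))) := by
    rw [Cardinal.mk_prod, Cardinal.lift_id, Cardinal.lift_id, Cardinal.mk_list_eq_mk,
      Cardinal.mul_eq_self h2]
  obtain ⟨φ⟩ := Cardinal.eq.1 h3
  classical
  refine ⟨fun i => if h : i < κ.ord then ((φ ⟨i, h⟩).1.1, (φ ⟨i, h⟩).2.map Subtype.val)
    else (0, []), ?_⟩
  intro a ha q hq
  obtain ⟨q', rfl⟩ := exists_list_subtype (Set.Iio (κ.ord : Ordinal.{u})) q hq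
  obtain ⟨⟨i, hi⟩, hi'⟩ := φ.surjective (⟨a, ha⟩, q')
  refine ⟨i, hi, ?_⟩
  have hi2 : i < κ.ord := hi
  simp only [hi2, dif_pos]
  rw [hi']

/-- Disjoint refinement: `κ` many unbounded sets have pairwise disjoint unbounded subsets. -/
theorem exists_assign (hκ : κ.IsRegular) (SS : List Ordinal.{u} → Set Ordinal.{u})
    (hSS : ∀ q, (∀ t ∈ q, t < κ.ord) → ∀ a < κ.ord, ∃ y ∈ SS q, a < y ∧ y < κ.ord) :
    ∃ σ : Ordinal.{u} → List Ordinal.{u}, ∀ q, (∀ t ∈ q, t < κ.ord) → ∀ a < κ.ord,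
      ∃ y ∈ SS q, a < y ∧ y < κ.ord ∧ σ y = q := by
  classical
  obtain ⟨E, hE⟩ := exists_enum hκ
  set A : Ordinal.{u} → Set Ordinal.{u} := fun i =>
    if (E i).1 < κ.ord ∧ ∀ t ∈ (E i).2, t < κ.ord then {y | y ∈ SS (E i).2 ∧ (E i).1 < y}
    else Set.univ with hA
  obtain ⟨f, hf1, hf2⟩ := exists_increasing hκ A (by
    intro i hi a ha
    by_cases h : (E i).1 < κ.ord ∧ ∀ t ∈ (E i).2, t < κ.ord
    · obtain ⟨y, hy, h1, h2⟩ := hSS (E i).2 h.2 (max a (E i).1) (max_lt ha h.1)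
      refine ⟨y, ?_, (le_max_left _ _).trans_lt h1, h2⟩
      simp only [hA, if_pos h]
      exact ⟨hy, (le_max_right _ _).trans_lt h1⟩
    · refine ⟨a + 1, ?_, Order.lt_add_one_iff.2 le_rfl, succ_lt hκ ha⟩
      simp only [hA, if_neg h, Set.mem_univ])
  have hinj : ∀ i < κ.ord, ∀ j < κ.ord, f i = f j → i = j := by
    intro i hi j hj h
    rcases lt_trichotomy i j with h' | h' | h'
    · exact absurd h (hf2 i j h' hj).ne
    · exact h'
    · exact absurd h.symm (hf2 j i h' hi).ne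
  refine ⟨fun y => if h : ∃ i, i < κ.ord ∧ f i = y then (E h.choose).2 else [], ?_⟩
  intro q hq a ha
  obtain ⟨i, hi, hEi⟩ := hE a ha q hq
  have h1 := (hf1 i hi).2
  have hcond : (E i).1 < κ.ord ∧ ∀ t ∈ (E i).2, t < κ.ord := by
    rw [hEi]
    exact ⟨ha, hq⟩
  simp only [hA, if_pos hcond] at h1
  rw [hEi] at h1
  refine ⟨f i, h1.1, h1.2, (hf1 i hi).1, ?_⟩
  have hex : ∃ j, j < κ.ord ∧ f j = f i := ⟨i, hi, rfl⟩
  simp only [hex, dif_pos]
  have h2 := hex.choose_spec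
  rw [hinj _ h2.1 i hi h2.2, hEi]

end Pool.Agent.Lib.H45EHM
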