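import Mathlib

/-!
# Stationary subsets of a regular uncountable cardinal, in terms of closure points

`Cl f δ` says that `δ` is a nonzero ordinal closed under `f`.  `Stat κ S` says that `S` contains,
below `κ.ord`, a closure point of every function from `κ.ord` to itself.
-/

set_option autoImplicit false

open Cardinal Order Set

universe u

namespace Pool.Agent.Lib.H45EHM

variable {κ : Cardinal.{u}}

theorem bound (hκ : κ.IsRegular) {ι : Type (u + 1)} (f : ι → Ordinal.{u})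
    (hι : #ι < Cardinal.lift.{u + 1} κ) (hf : ∀ i, f i < κ.ord) :
    ∃ b < κ.ord, ∀ i, f i ≤ b := by
  refine ⟨⨆ i, f i, ?_, fun i => ?_⟩
  · apply Ordinal.lift_iSup_lt_of_lt_cof _ hf
    have h1 : (Ordinal.lift.{u + 1} κ.ord).cof = Cardinal.lift.{u + 1} κ := by
      rw [← Ordinal.lift_cof, hκ.cof_ord]
    rw [h1]
    have h2 : Cardinal.lift.{u, u + 1} #ι = #ι := Cardinal.lift_id'.{u, u + 1} _
    rw [h2]
    exact hι
  · exact le_ciSup (f := f) ⟨κ.ord, by rintro _ ⟨j, rfl⟩; exact (hf j).le⟩ i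

theorem mk_Iio_lt (a : Ordinal.{u}) (ha : a < κ.ord) : #(Set.Iio a) < Cardinal.lift.{u + 1} κ := by
  rw [mk_Iio_ordinal, Cardinal.lift_lt]
  exact Cardinal.lt_ord.1 ha

theorem mk_list_lt (hκ0 : ℵ₀ < κ) (a : Ordinal.{u}) (ha : a < κ.ord) :
    #(List (Set.Iio a)) < Cardinal.lift.{u + 1} κ := by
  refine (Cardinal.mk_list_le_max _).trans_lt ?_
  refine max_lt ?_ (mk_Iio_lt a ha)
  rw [Cardinal.aleph0_lt_lift]
  exact hκ0

theorem succ_lt (hκ : κ.IsRegular) {a : Ordinal.{u}} (ha : a < κ.ord) : a + 1 < κ.ord := by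
  rw [← Order.succ_eq_add_one]
  exact (Cardinal.isSuccLimit_ord hκ.aleph0_le).succ_lt ha

/-- `δ` is nonzero and closed under `f`. -/
def Cl (f : Ordinal.{u} → Ordinal.{u}) (δ : Ordinal.{u}) : Prop := 0 < δ ∧ ∀ a < δ, f a < δ

/-- `S` contains a closure point of every function from `κ.ord` to itself. -/
def Stat (κ : Cardinal.{u}) (S : Set Ordinal.{u}) : Prop :=
  ∀ f : Ordinal.{u} → Ordinal.{u}, (∀ a < κ.ord, f a < κ.ord) → ∃ δ ∈ S, δ < κ.ord ∧ Cl f δ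

theorem Stat.mono {S T : Set Ordinal.{u}} (hS : Stat κ S) (h : S ⊆ T) : Stat κ T := by
  intro f hf
  obtain ⟨δ, hδ, h1⟩ := hS f hf
  exact ⟨δ, h hδ, h1⟩

theorem exists_list_subtype {A : Type*} (s : Set A) (p : List A) (h : ∀ t ∈ p, t ∈ s) :
    ∃ q : List s, q.map Subtype.val = p := by
  induction p with
  | nil => exact ⟨[], rfl⟩
  | cons a p ih =>
    obtain ⟨q, hq⟩ := ih fun t ht => h t (List.mem_cons_of_mem _ ht)
    exact ⟨⟨a, h a List.mem_cons_self⟩ :: q, by simp [hq]⟩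

/-- closure under finitely many ordinals at a time -/
theorem exists_list_closure (hκ : κ.IsRegular) (hκ0 : ℵ₀ < κ)
    (g : List Ordinal.{u} → Ordinal.{u}) (hg : ∀ p, (∀ t ∈ p, t < κ.ord) → g p < κ.ord) :
    ∃ f : Ordinal.{u} → Ordinal.{u}, (∀ a < κ.ord, f a < κ.ord) ∧
      ∀ δ, Cl f δ → δ ≤ κ.ord → ∀ p : List Ordinal.{u}, (∀ t ∈ p, t < δ) → g p < δ := by
  have h1 : ∀ a : Ordinal.{u}, ∃ b, a < κ.ord → (b < κ.ord ∧
      ∀ p : List Ordinal.{u}, (∀ t ∈ p, t ≤ a) → g p ≤ b) := by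
    intro a
    by_cases ha : a < κ.ord
    · have ha1 := succ_lt hκ ha
      obtain ⟨b, hb, hb'⟩ := bound hκ (ι := List (Set.Iio (a + 1)))
        (fun p => g (p.map Subtype.val)) (mk_list_lt hκ0 _ ha1) (by
          intro p
          apply hg
          intro t ht
          rw [List.mem_map] at ht
          obtain ⟨s, _, rfl⟩ := ht
          exact lt_trans s.2 ha1)
      refine ⟨b, fun _ => ⟨hb, ?_⟩⟩
      intro p hp
      obtain ⟨q, rfl⟩ := exists_list_subtype (Set.Iio (a + 1)) p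
        fun t ht => Order.lt_add_one_iff.2 (hp t ht)
      exact hb' q
    · exact ⟨0, fun h => absurd h ha⟩
  choose f hf using h1
  refine ⟨f, fun a ha => (hf a ha).1, ?_⟩
  intro δ hδ hδκ p hp
  have h2 : ∃ a < δ, ∀ t ∈ p, t ≤ a := by
    clear hg
    induction p with
    | nil => exact ⟨0, hδ.1, by simp⟩
    | cons s p ih =>
      obtain ⟨a, ha, ha'⟩ := ih (fun t ht => hp t (List.mem_cons_of_mem _ ht))
      refine ⟨max s a, max_lt (hp s List.mem_cons_self) ha, ?_⟩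
      intro t ht
      rcases List.mem_cons.1 ht with rfl | ht
      · exact le_max_left _ _
      · exact (ha' t ht).trans (le_max_right _ _)
  obtain ⟨a, ha, ha'⟩ := h2
  exact ((hf a (ha.trans_le hδκ)).2 p ha').trans_lt (hδ.2 a ha)

theorem exists_closure2 (hκ : κ.IsRegular) (hκ0 : ℵ₀ < κ)
    (g : Ordinal.{u} → Ordinal.{u} → Ordinal.{u})
    (hg : ∀ a < κ.ord, ∀ b < κ.ord, g a b < κ.ord) :
    ∃ f : Ordinal.{u} → Ordinal.{u}, (∀ a < κ.ord, f a < κ.ord) ∧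
      ∀ δ, Cl f δ → δ ≤ κ.ord → ∀ a < δ, ∀ b < δ, g a b < δ := by
  obtain ⟨f, hf1, hf2⟩ := exists_list_closure hκ hκ0
    (fun p => match p with
      | [a, b] => g a b
      | _ => 0) (by
        intro p hp
        match p, hp with
        | [a, b], hp => exact hg a (hp a (by simp)) b (hp b (by simp))
        | [], _ => exact hκ.ord_pos
        | [_], _ => exact hκ.ord_pos
        | _ :: _ :: _ :: _, _ => exact hκ.ord_pos)
  refine ⟨f, hf1, ?_⟩
  intro δ hδ hδκ a ha b hb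
  exact hf2 δ hδ hδκ [a, b] (by
    intro t ht
    simp only [List.mem_cons, List.not_mem_nil, or_false] at ht
    rcases ht with rfl | rfl
    · exact ha
    · exact hb)

theorem Cl.max_left {f g : Ordinal.{u} → Ordinal.{u}} {δ : Ordinal.{u}}
    (h : Cl (fun a => max (f a) (g a)) δ) : Cl f δ :=
  ⟨h.1, fun a ha => (le_max_left _ _).trans_lt (h.2 a ha)⟩

theorem Cl.max_right {f g : Ordinal.{u} → Ordinal.{u}} {δ : Ordinal.{u}}
    (h : Cl (fun a => max (f a) (g a)) δ) : Cl g δ :=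
  ⟨h.1, fun a ha => (le_max_right _ _).trans_lt (h.2 a ha)⟩

theorem Stat.inter_cl {S : Set Ordinal.{u}} (hS : Stat κ S) (f : Ordinal.{u} → Ordinal.{u})
    (hf : ∀ a < κ.ord, f a < κ.ord) : Stat κ {δ | δ ∈ S ∧ Cl f δ} := by
  intro g hg
  obtain ⟨δ, hδ, h1, h2⟩ := hS (fun a => max (f a) (g a)) fun a ha => max_lt (hf a ha) (hg a ha)
  exact ⟨δ, ⟨hδ, h2.max_left⟩, h1, h2.max_right⟩

theorem Stat.inter_lt {S : Set Ordinal.{u}} (hS : Stat κ S) : Stat κ {δ | δ ∈ S ∧ δ < κ.ord} := by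
  intro g hg
  obtain ⟨δ, hδ, h1, h2⟩ := hS g hg
  exact ⟨δ, ⟨hδ, h1⟩, h1, h2⟩

theorem Stat.inter_gt {S : Set Ordinal.{u}} (hS : Stat κ S) {a : Ordinal.{u}} (ha : a < κ.ord) :
    Stat κ {δ | δ ∈ S ∧ a < δ} := by
  refine (hS.inter_cl (fun _ => a) fun _ _ => ha).mono ?_
  rintro δ ⟨h1, h2⟩
  exact ⟨h1, h2.2 0 h2.1⟩

theorem Stat.exists_gt {S : Set Ordinal.{u}} (hS : Stat κ S) {a : Ordinal.{u}} (ha : a < κ.ord) :
    ∃ δ ∈ S, a < δ ∧ δ < κ.ord := by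
  obtain ⟨δ, hδ, h1, h2⟩ := hS (fun _ => a) fun _ _ => ha
  exact ⟨δ, hδ, h2.2 0 h2.1, h1⟩

/-- Fodor's lemma. -/
theorem Stat.fodor (hκ : κ.IsRegular) (hκ0 : ℵ₀ < κ) {S : Set Ordinal.{u}} (hS : Stat κ S)
    (h : Ordinal.{u} → Ordinal.{u}) (hh : ∀ δ ∈ S, h δ < δ) :
    ∃ b < κ.ord, Stat κ {δ | δ ∈ S ∧ h δ = b} := by
  by_contra hne
  push Not at hne
  have h1 : ∀ b, ∃ f : Ordinal.{u} → Ordinal.{u}, b < κ.ord → ((∀ a < κ.ord, f a < κ.ord) ∧
      ∀ δ ∈ S, h δ = b → δ < κ.ord → ¬ Cl f δ) := by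
    intro b
    by_cases hb : b < κ.ord
    · have h2 := hne b hb
      unfold Stat at h2
      push Not at h2
      obtain ⟨f, hf, hf'⟩ := h2
      exact ⟨f, fun _ => ⟨hf, fun δ hδ hb hlt => hf' δ ⟨hδ, hb⟩ hlt⟩⟩
    · exact ⟨id, fun h => absurd h hb⟩
  choose F hF using h1
  obtain ⟨f, hf1, hf2⟩ := exists_closure2 hκ hκ0 F fun b hb a ha => (hF b hb).1 a ha
  obtain ⟨δ, hδ, hδκ, hcl⟩ := hS f hf1
  have hlt := hh δ hδ
  refine (hF (h δ) (hlt.trans hδκ)).2 δ hδ rfl hδκ ⟨hcl.1, fun a ha => ?_⟩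
  exact hf2 δ hcl hδκ.le (h δ) hlt a ha

/-- Fodor's lemma for finitely many regressive functions at a time. -/
theorem Stat.fodor_finset (hκ : κ.IsRegular) (hκ0 : ℵ₀ < κ) (X : Finset Ordinal.{u})
    {S : Set Ordinal.{u}} (hS : Stat κ S)
    (h : Ordinal.{u} → Ordinal.{u} → Ordinal.{u}) (hh : ∀ δ ∈ S, ∀ x ∈ X, h δ x < δ) :
    ∃ (T : Set Ordinal.{u}) (c : Ordinal.{u} → Ordinal.{u}), T ⊆ S ∧ Stat κ T ∧
      ∀ δ ∈ T, ∀ x ∈ X, h δ x = c x := by
  classical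
  induction X using Finset.induction_on with
  | empty => exact ⟨S, id, Subset.rfl, hS, by simp⟩
  | insert y X hy ih =>
    obtain ⟨T, c, hTS, hT, hc⟩ := ih fun δ hδ x hx => hh δ hδ x (Finset.mem_insert_of_mem hx)
    obtain ⟨b, _, hb⟩ := hT.fodor hκ hκ0 (fun δ => h δ y) fun δ hδ =>
      hh δ (hTS hδ) y (Finset.mem_insert_self _ _)
    refine ⟨_, Function.update c y b, fun δ hδ => hTS hδ.1, hb, ?_⟩
    rintro δ ⟨hδ, hδb⟩ x hx
    rcases Finset.mem_insert.1 hx with rfl | hx'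
    · rw [Function.update_self]
      exact hδb
    · have hne : x ≠ y := fun h => hy (h ▸ hx')
      rw [Function.update_of_ne hne]
      exact hc δ hδ x hx'

/-- If a stationary set is the union of two sets, one of them is stationary. -/
theorem Stat.or {S T : Set Ordinal.{u}} (hS : Stat κ S) :
    Stat κ {δ | δ ∈ S ∧ δ ∈ T} ∨ Stat κ {δ | δ ∈ S ∧ δ ∉ T} := by
  by_contra hne
  push Not at hne
  obtain ⟨h1, h2⟩ := hne
  unfold Stat at h1 h2
  push Not at h1 h2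
  obtain ⟨f, hf, hf'⟩ := h1
  obtain ⟨g, hg, hg'⟩ := h2
  obtain ⟨δ, hδ, h3, h4⟩ := hS (fun a => max (f a) (g a)) fun a ha => max_lt (hf a ha) (hg a ha)
  by_cases h : δ ∈ T
  · exact hf' δ ⟨hδ, h⟩ h3 h4.max_left
  · exact hg' δ ⟨hδ, h⟩ h3 h4.max_right

/-- For an injective function `v` into the ordinals, `y ≤ v y` for almost all `y`. -/
theorem Stat.inter_le_inj (hκ : κ.IsRegular) (hκ0 : ℵ₀ < κ) {S : Set Ordinal.{u}} (hS : Stat κ S)
    (v : Ordinal.{u} → Ordinal.{u}) (hv : ∀ a < κ.ord, ∀ b < κ.ord, v a = v b → a = b) :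
    Stat κ {δ | δ ∈ S ∧ δ ≤ v δ} := by
  rcases hS.or (T := {δ | δ ≤ v δ}) with h | h
  · exact h
  · exfalso
    obtain ⟨b, _, h1⟩ := h.fodor hκ hκ0 v fun δ hδ => not_le.1 hδ.2
    obtain ⟨δ, hδ, h2, h3⟩ := h1.exists_gt (a := 0) hκ.ord_pos
    obtain ⟨δ', hδ', h2', h3'⟩ := h1.exists_gt (a := δ) h3
    have := hv δ h3 δ' h3' (hδ.2.trans hδ'.2.symm)
    exact absurd this h2'.ne

/-- Every family of fewer than `γ + 1` ordinals below `x` is bounded below `x`. -/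
def Wide (γ x : Ordinal.{u}) : Prop :=
  ∀ γ' ≤ γ, ∀ c : Ordinal.{u} → Ordinal.{u}, (∀ j < γ', c j < x) → ∃ b < x, ∀ j < γ', c j ≤ b

theorem Wide.mono {γ γ' x : Ordinal.{u}} (h : Wide γ x) (hγ : γ' ≤ γ) : Wide γ' x :=
  fun _ h1 => h _ (h1.trans hγ)

noncomputable def seq (F : Ordinal.{u} → Ordinal.{u}) (i : Ordinal.{u}) : Ordinal.{u} :=
  ⨆ j : Set.Iio i, (F (seq F j.1) + 1)
termination_by i
decreasing_by exact j.2

theorem lt_seq {F : Ordinal.{u} → Ordinal.{u}} {i j : Ordinal.{u}} (h : j < i) :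
    F (seq F j) < seq F i := by
  have h1 : seq F i = ⨆ j : Set.Iio i, (F (seq F j.1) + 1) := by rw [seq]
  rw [h1]
  exact (Order.lt_add_one_iff.2 le_rfl).trans_le
    (Ordinal.le_iSup (fun j : Set.Iio i => F (seq F j.1) + 1) ⟨j, h⟩)

theorem seq_lt (hκ : κ.IsRegular) {F : Ordinal.{u} → Ordinal.{u}}
    (hF : ∀ a < κ.ord, F a < κ.ord) (i : Ordinal.{u}) (hi : i < κ.ord) : seq F i < κ.ord := by
  induction i using WellFoundedLT.induction with
  | ind i ih =>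
    obtain ⟨b, hb, hb'⟩ := bound hκ (fun j : Set.Iio i => F (seq F j.1) + 1) (mk_Iio_lt i hi)
      fun j => succ_lt hκ (hF _ (ih j.1 j.2 (lt_trans j.2 hi)))
    rw [seq]
    exact (Ordinal.iSup_le hb').trans_lt hb

theorem stat_wide (hκ : κ.IsRegular) {σ : Cardinal.{u}} (hσ : σ.IsRegular)
    (hσκ : σ < κ) {γ : Ordinal.{u}} (hγ : γ < σ.ord) : Stat κ {x | Wide γ x} := by
  intro f hf
  obtain ⟨F, hF1, hF2⟩ : ∃ F : Ordinal.{u} → Ordinal.{u}, (∀ a < κ.ord, F a < κ.ord) ∧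
      ∀ a < κ.ord, ∀ b ≤ a, f b ≤ F a ∧ b ≤ F a := by
    have h1 : ∀ a : Ordinal.{u}, ∃ b, a < κ.ord → (b < κ.ord ∧ ∀ c ≤ a, f c ≤ b ∧ c ≤ b) := by
      intro a
      by_cases ha : a < κ.ord
      · have ha1 := succ_lt hκ ha
        obtain ⟨b, hb, hb'⟩ := bound hκ (fun j : Set.Iio (a + 1) => max (f j.1) j.1)
          (mk_Iio_lt _ ha1) fun j => max_lt (hf _ (lt_trans j.2 ha1)) (lt_trans j.2 ha1)
        refine ⟨b, fun _ => ⟨hb, fun c hc => ?_⟩⟩
        have := hb' ⟨c, Order.lt_add_one_iff.2 hc⟩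
        exact ⟨(le_max_left _ _).trans this, (le_max_right _ _).trans this⟩
      · exact ⟨0, fun h => absurd h ha⟩
    choose F hF using h1
    exact ⟨F, fun a ha => (hF a ha).1, fun a ha => (hF a ha).2⟩
  have hσκ' : σ.ord < κ.ord := Cardinal.ord_lt_ord.2 hσκ
  have hlt := seq_lt hκ hF1
  have hmono : ∀ i j : Ordinal.{u}, j < i → i < κ.ord → seq F j < seq F i := by
    intro i j hji hi
    exact ((hF2 _ (hlt j (hji.trans hi)) _ le_rfl).2).trans_lt (lt_seq hji)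
  have hex : ∀ a < seq F σ.ord, ∃ j < σ.ord, a < seq F j := by
    intro a ha
    rw [seq] at ha
    obtain ⟨⟨j, hj⟩, hj'⟩ := (Ordinal.lt_iSup_iff).1 ha
    refine ⟨j + 1, succ_lt hσ hj, ?_⟩
    refine (Order.lt_add_one_iff.1 hj').trans_lt ?_
    exact lt_seq (Order.lt_add_one_iff.2 le_rfl)
  refine ⟨seq F σ.ord, ?_, hlt _ hσκ', ?_, ?_⟩
  · intro γ' hγ' c hc
    have h2 : ∀ j : Set.Iio γ', ∃ k < σ.ord, c j.1 < seq F k := fun j => hex _ (hc j.1 j.2)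
    choose k hk hk' using h2
    obtain ⟨b, hb, hb'⟩ := bound hσ k (mk_Iio_lt γ' (hγ'.trans_lt hγ)) hk
    refine ⟨seq F b, hmono _ _ hb hσκ', ?_⟩
    intro j hj
    refine (hk' ⟨j, hj⟩).le.trans ?_
    rcases (hb' ⟨j, hj⟩).eq_or_lt with h | h
    · rw [h]
    · exact (hmono _ _ h (hb.trans hσκ')).le
  · refine lt_of_le_of_lt zero_le (lt_seq (i := σ.ord) (j := 0) hσ.ord_pos)
  · intro a ha
    obtain ⟨j, hj, hj'⟩ := hex a ha
    refine ((hF2 _ (hlt j (hj.trans hσκ')) a hj'.le).1).trans_lt (lt_seq hj)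

end Pool.Agent.Lib.H45EHM
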