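import Pool.Agent.Lib.H45EHM.Tree

/-!
# Embeddings into the set of leaves, and the decomposition of an ordinal into blocks
-/

set_option autoImplicit false

open Cardinal Order Set

universe u

namespace Pool.Agent.Lib.H45EHM

variable {κ : Cardinal.{u}}

/-- `L ∩ [a, a + w)` contains a strictly increasing copy of `w`. -/
def Emb (L : Set Ordinal.{u}) (a w : Ordinal.{u}) : Prop :=
  ∃ F : Ordinal.{u} → Ordinal.{u}, (∀ z < w, F z ∈ L ∧ a ≤ F z ∧ F z < a + w) ∧
    ∀ z z', z < z' → z' < w → F z < F z'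

theorem lt_of_div_mod {j z z' : Ordinal.{u}} (h : z < z') (hq : z / j = z' / j) :
    z % j < z' % j := by
  have h1 := Ordinal.div_add_mod z j
  have h2 := Ordinal.div_add_mod z' j
  rw [← h1, ← h2, hq] at h
  exact lt_of_add_lt_add_left h

theorem emb_block (hκ : κ.IsRegular) {L : Set Ordinal.{u}} {a γ : Ordinal.{u}} (hγ : γ ≠ 0)
    (h : ∀ j < γ, ∀ c < κ.ord, ∃ y, c < y ∧ y < κ.ord ∧
      Emb L (a + κ.ord ^ j + κ.ord ^ j * y) (κ.ord ^ j)) : Emb L a (κ.ord ^ γ) := by
  have hK := one_lt_K hκ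
  have h1 : ∀ j, ∃ f : Ordinal.{u} → Ordinal.{u}, j < γ → (∀ i < κ.ord, f i < κ.ord ∧
      Emb L (a + κ.ord ^ j + κ.ord ^ j * f i) (κ.ord ^ j)) ∧
      ∀ i i', i < i' → i' < κ.ord → f i < f i' := by
    intro j
    by_cases hj : j < γ
    · obtain ⟨f, hf1, hf2⟩ := exists_increasing hκ
        (fun _ => {y | Emb L (a + κ.ord ^ j + κ.ord ^ j * y) (κ.ord ^ j)}) (by
          intro i _ c hc
          obtain ⟨y, h1, h2, h3⟩ := h j hj c hc
          exact ⟨y, h3, h1, h2⟩)
      exact ⟨f, fun _ => ⟨hf1, hf2⟩⟩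
    · exact ⟨id, fun h => absurd h hj⟩
  choose f hf using h1
  have h2 : ∀ j i, ∃ F : Ordinal.{u} → Ordinal.{u}, j < γ → i < κ.ord →
      ((∀ z < κ.ord ^ j, F z ∈ L ∧ a + κ.ord ^ j + κ.ord ^ j * f j i ≤ F z ∧
        F z < a + κ.ord ^ j + κ.ord ^ j * f j i + κ.ord ^ j) ∧
      ∀ z z', z < z' → z' < κ.ord ^ j → F z < F z') := by
    intro j i
    by_cases hj : j < γ
    · by_cases hi : i < κ.ord
      · obtain ⟨F, hF⟩ := ((hf j hj).1 i hi).2
        exact ⟨F, fun _ _ => hF⟩
      · exact ⟨id, fun _ h => absurd h hi⟩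
    · exact ⟨id, fun h => absurd h hj⟩
  choose FF hFF using h2
  have hlog : ∀ z < κ.ord ^ γ, Ordinal.log κ.ord z < γ := fun z hz =>
    Ordinal.lt_log_of_lt_opow hγ hz
  have hdiv : ∀ z, z / κ.ord ^ Ordinal.log κ.ord z < κ.ord := fun z =>
    Ordinal.div_opow_log_lt z hK
  have hmod : ∀ z, z % κ.ord ^ Ordinal.log κ.ord z < κ.ord ^ Ordinal.log κ.ord z := fun z =>
    Ordinal.mod_lt z (opow_pos' hκ _).ne'
  have hup : ∀ j i, j < γ → i < κ.ord →
      a + κ.ord ^ j + κ.ord ^ j * f j i + κ.ord ^ j ≤ a + κ.ord ^ (j + 1) := by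
    intro j i hj hi
    rw [add_assoc, add_assoc a, ← opow_add_opow_succ hκ j]
    refine add_le_add_right ?_ a
    exact add_le_add_right (mul_add_le hκ ((hf j hj).1 i hi).1) _
  refine ⟨fun z => FF (Ordinal.log κ.ord z) (z / κ.ord ^ Ordinal.log κ.ord z)
    (z % κ.ord ^ Ordinal.log κ.ord z), ?_, ?_⟩
  · intro z hz
    obtain ⟨h3, h4, h5⟩ := (hFF _ _ (hlog z hz) (hdiv z)).1 _ (hmod z)
    refine ⟨h3, ?_, ?_⟩
    · refine le_trans ?_ h4
      rw [add_assoc]
      exact le_self_add
    · refine (h5.trans_le (hup _ _ (hlog z hz) (hdiv z))).trans_le ?_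
      exact add_le_add_right (opow_mono hκ (Order.add_one_le_of_lt (hlog z hz))) a
  · intro z z' hzz hz'
    have hz := hzz.trans hz'
    obtain ⟨_, h4, h5⟩ := (hFF _ _ (hlog z hz) (hdiv z)).1 _ (hmod z)
    obtain ⟨_, h4', h5'⟩ := (hFF _ _ (hlog z' hz') (hdiv z')).1 _ (hmod z')
    rcases (Ordinal.log_mono_right κ.ord hzz.le).lt_or_eq with hj | hj
    · refine (h5.trans_le (hup _ _ (hlog z hz) (hdiv z))).trans_le ?_
      refine le_trans ?_ h4'
      refine le_trans (add_le_add_right (opow_mono hκ (Order.add_one_le_of_lt hj)) a) ?_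
      exact le_self_add
    · have hdz := hdiv z
      have hdz' := hdiv z'
      have hmz' := hmod z'
      have hlz' := hlog z' hz'
      show FF (Ordinal.log κ.ord z) (z / κ.ord ^ Ordinal.log κ.ord z)
        (z % κ.ord ^ Ordinal.log κ.ord z) < FF (Ordinal.log κ.ord z')
        (z' / κ.ord ^ Ordinal.log κ.ord z') (z' % κ.ord ^ Ordinal.log κ.ord z')
      rw [hj] at h4 h5 hdz ⊢
      generalize Ordinal.log κ.ord z' = j at *
      rcases (Ordinal.div_le_left hzz.le (κ.ord ^ j)).lt_or_eq with hq | hq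
      · refine h5.trans_le (le_trans ?_ h4')
        have h6 := (hf j hlz').2 _ _ hq hdz'
        rw [add_assoc (a + κ.ord ^ j), ← mul_add_one]
        refine add_le_add_right ?_ _
        exact mul_le_mul_right (Order.add_one_le_of_lt h6) _
      · have h6 := lt_of_div_mod hzz hq
        rw [hq]
        exact (hFF j _ hlz' hdz').2 _ _ h6 hmz'

theorem emb_top (hκ : κ.IsRegular) {L : Set Ordinal.{u}} {a θ : Ordinal.{u}} (hθ : θ ≠ 0)
    (hθκ : θ < κ.ord)
    (h : ∀ j < θ, ∀ c < κ.ord, ∃ y, c < y ∧ y < κ.ord ∧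
      Emb L (a + κ.ord ^ θ * y) (κ.ord ^ (j + 1))) : Emb L a (κ.ord ^ (θ + 1)) := by
  have hK := one_lt_K hκ
  obtain ⟨f, hf1, hf2⟩ := exists_increasing hκ
    (fun i => {y | Emb L (a + κ.ord ^ θ * y) (κ.ord ^ (i % θ + 1))}) (by
      intro i _ c hc
      obtain ⟨y, h1, h2, h3⟩ := h (i % θ) (Ordinal.mod_lt i hθ) c hc
      exact ⟨y, h3, h1, h2⟩)
  have h2 : ∀ i, ∃ F : Ordinal.{u} → Ordinal.{u}, i < κ.ord →
      ((∀ z < κ.ord ^ (i % θ + 1), F z ∈ L ∧ a + κ.ord ^ θ * f i ≤ F z ∧
        F z < a + κ.ord ^ θ * f i + κ.ord ^ (i % θ + 1)) ∧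
      ∀ z z', z < z' → z' < κ.ord ^ (i % θ + 1) → F z < F z') := by
    intro i
    by_cases hi : i < κ.ord
    · obtain ⟨F, hF⟩ := (hf1 i hi).2
      exact ⟨F, fun _ => hF⟩
    · exact ⟨id, fun h => absurd h hi⟩
  choose FF hFF using h2
  set ξ : Ordinal.{u} → Ordinal.{u} := fun z =>
    θ * (z / κ.ord ^ θ) + Ordinal.log κ.ord (z % κ.ord ^ θ) with hξ
  have hlog : ∀ z, Ordinal.log κ.ord (z % κ.ord ^ θ) < θ := fun z =>
    Ordinal.lt_log_of_lt_opow hθ (Ordinal.mod_lt z (opow_pos' hκ _).ne')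
  have hξmod : ∀ z, ξ z % θ = Ordinal.log κ.ord (z % κ.ord ^ θ) := by
    intro z
    simp only [hξ]
    rw [Ordinal.mul_add_mod_self, Ordinal.mod_eq_of_lt (hlog z)]
  have hdiv : ∀ z < κ.ord ^ (θ + 1), z / κ.ord ^ θ < κ.ord := by
    intro z hz
    rw [← Ordinal.lt_mul_iff_div_lt (opow_pos' hκ _).ne', ← Ordinal.opow_add_one]
    exact hz
  have hξκ : ∀ z < κ.ord ^ (θ + 1), ξ z < κ.ord := by
    intro z hz
    refine Ordinal.isPrincipal_add_ord hκ.aleph0_le ?_ ((hlog z).trans hθκ)
    exact Ordinal.isPrincipal_mul_ord hκ.aleph0_le hθκ (hdiv z hz)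
  have hr : ∀ z, z % κ.ord ^ θ < κ.ord ^ (ξ z % θ + 1) := by
    intro z
    rw [hξmod, ← Order.succ_eq_add_one]
    exact Ordinal.lt_opow_succ_log_self hK _
  have hup : ∀ z < κ.ord ^ (θ + 1), a + κ.ord ^ θ * f (ξ z) + κ.ord ^ (ξ z % θ + 1) ≤
      a + κ.ord ^ θ * (f (ξ z) + 1) := by
    intro z hz
    rw [mul_add_one, add_assoc]
    refine add_le_add_right (add_le_add_right (opow_mono hκ ?_) _) _
    rw [hξmod]
    exact Order.add_one_le_of_lt (hlog z)
  refine ⟨fun z => FF (ξ z) (z % κ.ord ^ θ), ?_, ?_⟩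
  · intro z hz
    obtain ⟨h3, h4, h5⟩ := (hFF _ (hξκ z hz)).1 _ (hr z)
    refine ⟨h3, ?_, ?_⟩
    · exact le_trans le_self_add h4
    · refine (h5.trans_le (hup z hz)).trans_le ?_
      rw [Ordinal.opow_add_one]
      refine add_le_add_right (mul_le_mul_right ?_ _) a
      exact (succ_lt hκ (hf1 _ (hξκ z hz)).1).le
  · intro z z' hzz hz'
    have hz := hzz.trans hz'
    obtain ⟨_, h4, h5⟩ := (hFF _ (hξκ z hz)).1 _ (hr z)
    obtain ⟨_, h4', h5'⟩ := (hFF _ (hξκ z' hz')).1 _ (hr z')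
    have hlt : ξ z < ξ z' → FF (ξ z) (z % κ.ord ^ θ) < FF (ξ z') (z' % κ.ord ^ θ) := by
      intro hlt
      refine (h5.trans_le (hup z hz)).trans_le (le_trans ?_ h4')
      refine add_le_add_right (mul_le_mul_right ?_ _) a
      exact Order.add_one_le_of_lt (hf2 _ _ hlt (hξκ z' hz'))
    rcases (Ordinal.div_le_left hzz.le (κ.ord ^ θ)).lt_or_eq with hq | hq
    · apply hlt
      simp only [hξ]
      refine (add_lt_add_right (hlog z) _).trans_le ?_
      rw [← mul_add_one]
      exact (mul_le_mul_right (Order.add_one_le_of_lt hq) _).trans le_self_add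
    · have h6 := lt_of_div_mod hzz hq
      rcases (Ordinal.log_mono_right κ.ord h6.le).lt_or_eq with hj | hj
      · apply hlt
        simp only [hξ]
        rw [hq]
        exact add_lt_add_right hj _
      · have h7 : ξ z = ξ z' := by
          simp only [hξ]
          rw [hq, hj]
        show FF (ξ z) (z % κ.ord ^ θ) < FF (ξ z') (z' % κ.ord ^ θ)
        rw [h7]
        exact (hFF _ (hξκ z' hz')).2 _ _ h6 (hr z')

/-- Decomposition of a multiple of `κ` below `κ^(θ+2)` into fewer than `κ` blocks. -/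
theorem exists_blocks (hκ : κ.IsRegular) (θ : Ordinal.{u}) (α : Ordinal.{u})
    (hdvd : κ.ord ∣ α) (hα : α < κ.ord ^ (θ + 2)) :
    ∃ (μ : Ordinal.{u}) (A Γ : Ordinal.{u} → Ordinal.{u}), μ < κ.ord ∧
      (∀ i < μ, Γ i ≠ 0 ∧ Γ i ≤ θ + 1 ∧ A i + κ.ord ^ Γ i ≤ α) ∧
      (∀ i i', i < i' → i' < μ → A i + κ.ord ^ Γ i ≤ A i') ∧
      (∀ z < α, ∃ i < μ, A i ≤ z ∧ z < A i + κ.ord ^ Γ i) := by
  have hK := one_lt_K hκ
  induction α using WellFoundedLT.induction with
  | ind α ih =>
    by_cases h0 : α = 0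
    · subst h0
      exact ⟨0, id, id, hκ.ord_pos, fun i hi => absurd hi not_lt_zero,
        fun i i' _ hi => absurd hi not_lt_zero, fun z hz => absurd hz not_lt_zero⟩
    · set γ := Ordinal.log κ.ord α with hγ
      have hKα : κ.ord ≤ α := Ordinal.le_of_dvd h0 hdvd
      have hγ0 : γ ≠ 0 := (Ordinal.log_pos hK h0 hKα).ne'
      have hγθ : γ ≤ θ + 1 := by
        have h1 : Ordinal.log κ.ord α < θ + 2 :=
          Ordinal.lt_log_of_lt_opow (by
            intro h
            have : (2 : Ordinal.{u}) ≤ θ + 2 := le_add_self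
            rw [h] at this
            exact absurd this (not_le.2 (by norm_num))) hα
        have h2 : θ + 2 = θ + 1 + 1 := by rw [add_assoc, one_add_one_eq_two]
        rw [h2] at h1
        exact Order.lt_add_one_iff.1 h1
      set c := α / κ.ord ^ γ with hc
      set ρ := α % κ.ord ^ γ with hρ
      have hcK : c < κ.ord := Ordinal.div_opow_log_lt α hK
      have hρlt : ρ < κ.ord ^ γ := Ordinal.mod_lt α (opow_pos' hκ _).ne'
      have hαe : κ.ord ^ γ * c + ρ = α := Ordinal.div_add_mod α _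
      have hρα : ρ < α := hρlt.trans_le (Ordinal.opow_log_le_self κ.ord h0)
      have hdK : κ.ord ∣ κ.ord ^ γ := by
        have := Ordinal.opow_dvd_opow κ.ord (Order.one_le_iff_ne_zero.2 hγ0)
        rwa [Ordinal.opow_one] at this
      have hρd : κ.ord ∣ ρ := by
        have h1 : κ.ord ∣ κ.ord ^ γ * c + ρ := by rw [hαe]; exact hdvd
        exact (Ordinal.dvd_add_iff (hdK.mul_right c)).1 h1
      obtain ⟨μ, A, Γ, hμ, h1, h2, h3⟩ := ih ρ hρα hρd (hρα.trans hα)
      classical
      have hblock : ∀ i < c, κ.ord ^ γ * i + κ.ord ^ γ ≤ κ.ord ^ γ * c := by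
        intro i hi
        rw [← mul_add_one]
        exact mul_le_mul_right (Order.add_one_le_of_lt hi) _
      refine ⟨c + μ, fun i => if i < c then κ.ord ^ γ * i else κ.ord ^ γ * c + A (i - c),
        fun i => if i < c then γ else Γ (i - c), ?_, ?_, ?_, ?_⟩
      · exact Ordinal.isPrincipal_add_ord hκ.aleph0_le hcK hμ
      · intro i hi
        by_cases hic : i < c
        · simp only [if_pos hic]
          refine ⟨hγ0, hγθ, ?_⟩
          exact (hblock i hic).trans (by
            conv_rhs => rw [← hαe]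
            exact le_self_add)
        · simp only [if_neg hic]
          have hi' : i - c < μ := by
            rw [Ordinal.sub_lt_of_le (not_lt.1 hic)]
            exact hi
          obtain ⟨h4, h5, h6⟩ := h1 _ hi'
          refine ⟨h4, h5, ?_⟩
          conv_rhs => rw [← hαe]
          rw [add_assoc]
          exact add_le_add_right h6 _
      · intro i i' hii hi'
        by_cases hic : i < c
        · simp only [if_pos hic]
          by_cases hic' : i' < c
          · simp only [if_pos hic']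
            rw [← mul_add_one]
            exact mul_le_mul_right (Order.add_one_le_of_lt hii) _
          · simp only [if_neg hic']
            exact (hblock i hic).trans le_self_add
        · have hic' : ¬ i' < c := fun h => hic (hii.trans h)
          simp only [if_neg hic, if_neg hic']
          rw [add_assoc]
          refine add_le_add_right (h2 _ _ ?_ ?_) _
          · rw [Ordinal.sub_lt_of_le (not_lt.1 hic),
              Ordinal.add_sub_cancel_of_le (not_lt.1 hic')]
            exact hii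
          · rw [Ordinal.sub_lt_of_le (not_lt.1 hic')]
            exact hi'
      · intro z hz
        by_cases hzc : z < κ.ord ^ γ * c
        · have h4 : z / κ.ord ^ γ < c := (Ordinal.lt_mul_iff_div_lt (opow_pos' hκ _).ne').1 hzc
          refine ⟨z / κ.ord ^ γ, h4.trans_le le_self_add, ?_⟩
          simp only [if_pos h4]
          refine ⟨Ordinal.mul_div_le _ _, Ordinal.lt_mul_div_add _ (opow_pos' hκ _).ne'⟩
        · have hzc' := not_lt.1 hzc
          have h4 : z - κ.ord ^ γ * c < ρ := by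
            rw [Ordinal.sub_lt_of_le hzc', hαe]
            exact hz
          obtain ⟨i, hi, h5, h6⟩ := h3 _ h4
          refine ⟨c + i, add_lt_add_right hi _, ?_⟩
          have hnot : ¬ c + i < c := not_lt.2 le_self_add
          simp only [if_neg hnot, Ordinal.add_sub_cancel]
          constructor
          · rw [← Ordinal.add_sub_cancel_of_le hzc']
            exact add_le_add_right h5 _
          · rw [← Ordinal.add_sub_cancel_of_le hzc', add_assoc]
            exact add_lt_add_right h6 _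

end Pool.Agent.Lib.H45EHM
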