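import Pool.Agent.Lib.H45EHM.Trace

/-!
# Good blocks

`Good P a γ X b` is a hereditary statement about the block `[a, a + κ^γ)`: many of its vertices have,
for every `x ∈ X`, index at least `x` and a trace below `x` bounded by `b x`.
-/

set_option autoImplicit false

open Cardinal Order Set

universe u

namespace Pool.Agent.Lib.H45EHM

variable {κ : Cardinal.{u}}

/-! ### ordinal arithmetic -/

theorem one_lt_K (hκ : κ.IsRegular) : (1 : Ordinal.{u}) < κ.ord := by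
  have h := succ_lt hκ hκ.ord_pos
  rwa [zero_add] at h

theorem K_ne (hκ : κ.IsRegular) : (κ.ord : Ordinal.{u}) ≠ 0 := hκ.ord_pos.ne'

theorem one_add_K (hκ : κ.IsRegular) : 1 + κ.ord = κ.ord :=
  Ordinal.one_add_of_omega0_le (by
    rw [← Cardinal.ord_aleph0]
    exact Cardinal.ord_le_ord.2 hκ.aleph0_le)

theorem opow_add_opow_succ (hκ : κ.IsRegular) (j : Ordinal.{u}) :
    κ.ord ^ j + κ.ord ^ (j + 1) = κ.ord ^ (j + 1) := by
  rw [Ordinal.opow_add_one]
  conv_lhs => rw [← mul_one (κ.ord ^ j)]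
  rw [mul_assoc, one_mul, ← mul_add, one_add_K hκ]

theorem opow_mono (hκ : κ.IsRegular) {i j : Ordinal.{u}} (h : i ≤ j) : κ.ord ^ i ≤ κ.ord ^ j :=
  Ordinal.opow_le_opow_right hκ.ord_pos h

theorem opow_pos' (hκ : κ.IsRegular) (i : Ordinal.{u}) : 0 < κ.ord ^ i :=
  Ordinal.opow_pos _ hκ.ord_pos

theorem mul_add_le (hκ : κ.IsRegular) {η y : Ordinal.{u}} (hy : y < κ.ord) :
    κ.ord ^ η * y + κ.ord ^ η ≤ κ.ord ^ (η + 1) := by
  rw [← mul_add_one, Ordinal.opow_add_one]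
  exact mul_le_mul_right (succ_lt hκ hy).le _

variable (P : Setup κ)

/-- good blocks -/
inductive Good : Ordinal.{u} → Ordinal.{u} → Finset Ordinal.{u} → (Ordinal.{u} → Ordinal.{u}) → Prop
  | leaf (a : Ordinal.{u}) (X : Finset Ordinal.{u}) (b : Ordinal.{u} → Ordinal.{u}) :
      a < P.α → (∀ x ∈ X, x ≤ P.e a ∧ P.Tr a x (b x)) → Good a 0 X b
  | node (a γ : Ordinal.{u}) (X : Finset Ordinal.{u}) (b : Ordinal.{u} → Ordinal.{u})
      (g : Ordinal.{u} → Ordinal.{u}) (S : Ordinal.{u} → Set Ordinal.{u}) :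
      γ ≠ 0 → (∀ j < γ, Stat κ (S j)) → (∀ j < γ, g j < κ.ord) →
      (∀ j < γ, ∀ y ∈ S j, g j < y ∧ y < κ.ord ∧ ∀ x ∈ X, x < y) →
      (∀ j < γ, ∀ y ∈ S j, Good (a + κ.ord ^ j + κ.ord ^ j * y) j (insert y X)
        (Function.update b y (g j))) → Good a γ X b

/-- good nodes: the children are the blocks `[a + κ^η y, a + κ^η y + κ^γ)` -/
def KG (a η γ : Ordinal.{u}) (X : Finset Ordinal.{u}) (b : Ordinal.{u} → Ordinal.{u}) : Prop :=
  ∃ (g : Ordinal.{u}) (S : Set Ordinal.{u}), g < κ.ord ∧ Stat κ S ∧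
    ∀ y ∈ S, (g < y ∧ y < κ.ord ∧ ∀ x ∈ X, x < y) ∧
      Good P (a + κ.ord ^ η * y) γ (insert y X) (Function.update b y g)

variable {P}

theorem Good.kg {a γ : Ordinal.{u}} {X : Finset Ordinal.{u}} {b : Ordinal.{u} → Ordinal.{u}}
    (h : Good P a γ X b) {j : Ordinal.{u}} (hj : j < γ) : KG P (a + κ.ord ^ j) j j X b := by
  cases h with
  | leaf _ _ _ _ _ => exact absurd hj not_lt_zero
  | node _ _ _ _ g S h1 h2 h3 h4 h5 =>
    exact ⟨g j, S j, h3 j hj, h2 j hj, fun y hy => ⟨h4 j hj y hy, h5 j hj y hy⟩⟩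

theorem Good.leaf_inv {a γ : Ordinal.{u}} {X : Finset Ordinal.{u}} {b : Ordinal.{u} → Ordinal.{u}}
    (h : Good P a γ X b) (hγ : γ = 0) : a < P.α ∧ ∀ x ∈ X, x ≤ P.e a ∧ P.Tr a x (b x) := by
  cases h with
  | leaf _ _ _ h1 h2 => exact ⟨h1, h2⟩
  | node _ _ _ _ g S h1 h2 h3 h4 h5 => exact absurd hγ h1

theorem update_le {X : Finset Ordinal.{u}} {b b' : Ordinal.{u} → Ordinal.{u}}
    (h : ∀ x ∈ X, b x ≤ b' x) {y g : Ordinal.{u}} :
    ∀ x ∈ insert y X, Function.update b y g x ≤ Function.update b' y g x := by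
  intro x hx
  by_cases hxy : x = y
  · subst hxy
    rw [Function.update_self, Function.update_self]
  · rw [Function.update_of_ne hxy, Function.update_of_ne hxy]
    exact h x ((Finset.mem_insert.1 hx).resolve_left hxy)

theorem Good.mono {a γ : Ordinal.{u}} {X : Finset Ordinal.{u}} {b b' : Ordinal.{u} → Ordinal.{u}}
    (h : Good P a γ X b) (hb : ∀ x ∈ X, b x ≤ b' x) : Good P a γ X b' := by
  induction h generalizing b' with
  | leaf a X b h1 h2 =>
    exact Good.leaf a X b' h1 fun x hx => ⟨(h2 x hx).1, (h2 x hx).2.mono (hb x hx)⟩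
  | node a γ X b g S h1 h2 h3 h4 h5 ih =>
    exact Good.node a γ X b' g S h1 h2 h3 h4 fun j hj y hy => ih j hj y hy (update_le hb)

theorem KG.mono {a η γ : Ordinal.{u}} {X : Finset Ordinal.{u}} {b b' : Ordinal.{u} → Ordinal.{u}}
    (h : KG P a η γ X b) (hb : ∀ x ∈ X, b x ≤ b' x) : KG P a η γ X b' := by
  obtain ⟨g, S, h1, h2, h3⟩ := h
  exact ⟨g, S, h1, h2, fun y hy => ⟨(h3 y hy).1, (h3 y hy).2.mono (update_le hb)⟩⟩

/-- the induction hypothesis for blocks -/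
def PClaim (P : Setup κ) (E : Set Ordinal.{u}) (γ : Ordinal.{u}) : Prop :=
  ∀ (a : Ordinal.{u}) (X : Finset Ordinal.{u}), a + κ.ord ^ γ ≤ P.α → (∀ x ∈ X, x ∈ E) →
    (γ = 0 → ∀ x ∈ X, x ≤ P.e a) → ∃ b : Ordinal.{u} → Ordinal.{u}, (∀ x ∈ X, b x < x) ∧
      Good P a γ X b

/-- the induction hypothesis for nodes -/
def KClaim (P : Setup κ) (E : Set Ordinal.{u}) (γ : Ordinal.{u}) : Prop :=
  ∀ (a η : Ordinal.{u}) (X : Finset Ordinal.{u}), γ ≤ η → a + κ.ord ^ (η + 1) ≤ P.α →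
    (∀ x ∈ X, x ∈ E) → ∃ b : Ordinal.{u} → Ordinal.{u}, (∀ x ∈ X, b x < x) ∧ KG P a η γ X b

theorem exists_finset_lt (X : Finset Ordinal.{u}) (h : ∀ x ∈ X, x < κ.ord) (hκ : κ.IsRegular) :
    ∃ m < κ.ord, ∀ x ∈ X, x ≤ m := by
  induction X using Finset.induction_on with
  | empty => exact ⟨0, hκ.ord_pos, by simp⟩
  | insert y X _ ih =>
    obtain ⟨m, hm, hm'⟩ := ih fun x hx => h x (Finset.mem_insert_of_mem hx)
    refine ⟨max m y, max_lt hm (h y (Finset.mem_insert_self _ _)), ?_⟩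
    intro x hx
    rcases Finset.mem_insert.1 hx with rfl | hx
    · exact le_max_right _ _
    · exact (hm' x hx).trans (le_max_left _ _)

theorem kclaim_of_pclaim {E : Set Ordinal.{u}} (hE : Stat κ E) (hEκ : ∀ x ∈ E, x < κ.ord)
    {γ : Ordinal.{u}} (hγ : PClaim P E γ) : KClaim P E γ := by
  intro a η X hγη ha hX
  have hκ := P.reg
  have hκ0 := P.unc
  obtain ⟨m, hm, hm'⟩ := exists_finset_lt (κ := κ) X (fun x hx => hEκ x (hX x hx)) hκ
  have hblk : ∀ y < κ.ord, a + κ.ord ^ η * y + κ.ord ^ η ≤ P.α := by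
    intro y hy
    refine le_trans ?_ ha
    rw [add_assoc]
    exact add_le_add_right (mul_add_le hκ hy) _
  have hS0 : Stat κ {y | (y ∈ E ∧ m < y) ∧ y ≤ P.e (a + κ.ord ^ η * y)} := by
    refine (hE.inter_gt hm).inter_le_inj hκ hκ0 (fun y => P.e (a + κ.ord ^ η * y)) ?_
    intro y hy z hz h
    have h1 : a + κ.ord ^ η * y < P.α :=
      (lt_add_of_pos_right _ (opow_pos' hκ η)).trans_le (hblk y hy)
    have h2 : a + κ.ord ^ η * z < P.α :=
      (lt_add_of_pos_right _ (opow_pos' hκ η)).trans_le (hblk z hz)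
    have h3 := P.e_inj _ h1 _ h2 h
    have h4 := add_left_cancel h3
    exact (mul_right_inj' (opow_pos' hκ η).ne').1 h4
  have h1 : ∀ y, ∃ b : Ordinal.{u} → Ordinal.{u}, y ∈ {y | (y ∈ E ∧ m < y) ∧
      y ≤ P.e (a + κ.ord ^ η * y)} → (∀ x ∈ insert y X, b x < x) ∧
        Good P (a + κ.ord ^ η * y) γ (insert y X) b := by
    intro y
    by_cases hy : y ∈ {y | (y ∈ E ∧ m < y) ∧ y ≤ P.e (a + κ.ord ^ η * y)}
    · obtain ⟨b, hb⟩ := hγ (a + κ.ord ^ η * y) (insert y X) (by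
          refine le_trans ?_ (hblk y (hEκ y hy.1.1))
          exact add_le_add_right (opow_mono hκ hγη) _) (by
          intro x hx
          rcases Finset.mem_insert.1 hx with rfl | hx
          · exact hy.1.1
          · exact hX x hx) (by
          intro _ x hx
          rcases Finset.mem_insert.1 hx with rfl | hx
          · exact hy.2
          · exact ((hm' x hx).trans hy.1.2.le).trans hy.2)
      exact ⟨b, fun _ => hb⟩
    · exact ⟨id, fun h => absurd h hy⟩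
  choose B hB using h1
  obtain ⟨T, c, hTS, hT, hc⟩ := hS0.fodor_finset hκ hκ0 X (fun y x => B y x) (by
    intro y hy x hx
    exact ((hB y hy).1 x (Finset.mem_insert_of_mem hx)).trans_le
      ((hm' x hx).trans hy.1.2.le))
  obtain ⟨g, hg, hT'⟩ := hT.fodor hκ hκ0 (fun y => B y y) (by
    intro y hy
    exact (hB y (hTS hy)).1 y (Finset.mem_insert_self _ _))
  refine ⟨c, ?_, g, _, hg, hT', ?_⟩
  · intro x hx
    obtain ⟨y, hy, _, _⟩ := hT'.exists_gt (a := 0) hκ.ord_pos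
    rw [← hc y hy.1 x hx]
    exact (hB y (hTS hy.1)).1 x (Finset.mem_insert_of_mem hx)
  · rintro y ⟨hy, hyg⟩
    have hyS := hTS hy
    refine ⟨⟨?_, hEκ y hyS.1.1, fun x hx => (hm' x hx).trans_lt hyS.1.2⟩, ?_⟩
    · rw [← hyg]
      exact (hB y hyS).1 y (Finset.mem_insert_self _ _)
    · refine (hB y hyS).2.mono ?_
      intro x hx
      by_cases hxy : x = y
      · subst hxy
        rw [Function.update_self]
        exact hyg.le
      · rw [Function.update_of_ne hxy]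
        exact (hc y hy x ((Finset.mem_insert.1 hx).resolve_left hxy)).le

theorem pclaim_zero {E : Set Ordinal.{u}}
    (hEt : ∀ x ∈ E, ∀ v < P.α, x ≤ P.e v → ∃ b < x, P.Tr v x b) : PClaim P E 0 := by
  intro a X ha hX hX'
  have ha' : a < P.α := by
    rw [Ordinal.opow_zero] at ha
    exact (lt_add_of_pos_right a zero_lt_one).trans_le ha
  have h1 : ∀ x, ∃ b, x ∈ X → (b < x ∧ P.Tr a x b) := by
    intro x
    by_cases hx : x ∈ X
    · obtain ⟨b, hb, hb'⟩ := hEt x (hX x hx) a ha' (hX' rfl x hx)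
      exact ⟨b, fun _ => ⟨hb, hb'⟩⟩
    · exact ⟨0, fun h => absurd h hx⟩
  choose b hb using h1
  exact ⟨b, fun x hx => (hb x hx).1, Good.leaf a X b ha' fun x hx => ⟨hX' rfl x hx, (hb x hx).2⟩⟩

theorem pclaim_of_kclaim {E : Set Ordinal.{u}} {Γ γ : Ordinal.{u}} (hγΓ : γ ≤ Γ) (hγ : γ ≠ 0)
    (hEw : ∀ x ∈ E, Wide Γ x) (h : ∀ j < γ, KClaim P E j) : PClaim P E γ := by
  intro a X ha hX _
  have hκ := P.reg
  have h1 : ∀ j, ∃ b : Ordinal.{u} → Ordinal.{u}, j < γ → (∀ x ∈ X, b x < x) ∧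
      KG P (a + κ.ord ^ j) j j X b := by
    intro j
    by_cases hj : j < γ
    · obtain ⟨b, hb⟩ := h j hj (a + κ.ord ^ j) j X le_rfl (by
        rw [add_assoc, opow_add_opow_succ hκ]
        refine le_trans ?_ ha
        exact add_le_add_right (opow_mono hκ (Order.add_one_le_of_lt hj)) _) hX
      exact ⟨b, fun _ => hb⟩
    · exact ⟨id, fun h => absurd h hj⟩
  choose B hB using h1
  have h2 : ∀ x, ∃ b, x ∈ X → (b < x ∧ ∀ j < γ, B j x ≤ b) := by
    intro x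
    by_cases hx : x ∈ X
    · obtain ⟨b, hb, hb'⟩ := hEw x (hX x hx) γ hγΓ (fun j => B j x) fun j hj => (hB j hj).1 x hx
      exact ⟨b, fun _ => ⟨hb, hb'⟩⟩
    · exact ⟨0, fun h => absurd h hx⟩
  choose b hb using h2
  have h3 : ∀ j, ∃ (g : Ordinal.{u}) (S : Set Ordinal.{u}), j < γ → (g < κ.ord ∧ Stat κ S ∧
      ∀ y ∈ S, (g < y ∧ y < κ.ord ∧ ∀ x ∈ X, x < y) ∧
        Good P (a + κ.ord ^ j + κ.ord ^ j * y) j (insert y X) (Function.update b y g)) := by
    intro j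
    by_cases hj : j < γ
    · obtain ⟨g, S, hg⟩ := (hB j hj).2.mono fun x hx => (hb x hx).2 j hj
      exact ⟨g, S, fun _ => hg⟩
    · exact ⟨0, ∅, fun h => absurd h hj⟩
  choose g S hg using h3
  refine ⟨b, fun x hx => (hb x hx).1, Good.node a γ X b g S hγ (fun j hj => (hg j hj).2.1)
    (fun j hj => (hg j hj).1) (fun j hj y hy => ((hg j hj).2.2 y hy).1)
    (fun j hj y hy => ((hg j hj).2.2 y hy).2)⟩

theorem kg_exists (P : Setup κ) {σ : Cardinal.{u}} (hσ : σ.IsRegular) (hσκ : σ < κ)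
    {a η γ : Ordinal.{u}} (hγ : γ < σ.ord) (hγη : γ ≤ η) (ha : a + κ.ord ^ (η + 1) ≤ P.α)
    (b : Ordinal.{u} → Ordinal.{u}) : KG P a η γ ∅ b := by
  have hκ := P.reg
  have hκ0 := P.unc
  obtain ⟨f, hf1, hf2⟩ := P.exists_trace
  set E : Set Ordinal.{u} := {x | (Wide γ x ∧ Cl f x) ∧ x < κ.ord} with hE
  have hES : Stat κ E := ((stat_wide hκ hσ hσκ hγ).inter_cl f hf1).inter_lt
  have hEκ : ∀ x ∈ E, x < κ.ord := fun x hx => hx.2
  have hEt : ∀ x ∈ E, ∀ v < P.α, x ≤ P.e v → ∃ b < x, P.Tr v x b :=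
    fun x hx => hf2 x hx.1.2 hx.2
  have hEw : ∀ x ∈ E, Wide γ x := fun x hx => hx.1.1
  have h1 : ∀ j ≤ γ, PClaim P E j := by
    intro j
    induction j using WellFoundedLT.induction with
    | ind j ih =>
      intro hj
      by_cases hj0 : j = 0
      · subst hj0
        exact pclaim_zero hEt
      · exact pclaim_of_kclaim hj hj0 hEw fun i hi =>
          kclaim_of_pclaim hES hEκ (ih i hi (hi.le.trans hj))
  obtain ⟨b', _, hb'⟩ := kclaim_of_pclaim hES hEκ (h1 γ le_rfl) a η ∅ hγη ha (by simp)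
  exact hb'.mono (by simp)

end Pool.Agent.Lib.H45EHM
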