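import Pool.Agent.Lib.H45EHM.Embed

/-!
# The theorem
-/

set_option autoImplicit false

open Cardinal Order Set

universe u

namespace Pool.Agent.Lib.H45EHM

variable {κ : Cardinal.{u}}

theorem exists_regular {θ : Cardinal.{u}} (hθ : ℵ₀ ≤ θ) (hθκ : θ < κ) {j : Ordinal.{u}}
    (hj : j < θ.ord) : ∃ σ : Cardinal.{u}, σ.IsRegular ∧ σ < κ ∧ j < σ.ord := by
  rcases lt_or_ge j (ℵ₀ : Cardinal.{u}).ord with h | h
  · exact ⟨ℵ₀, Cardinal.isRegular_aleph0, hθ.trans_lt hθκ, h⟩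
  · have h1 : ℵ₀ ≤ j.card := Cardinal.ord_le.1 h
    refine ⟨Order.succ j.card, Cardinal.isRegular_succ h1, ?_, ?_⟩
    · exact (Order.succ_le_of_lt (Cardinal.lt_ord.1 hj)).trans_lt hθκ
    · exact Cardinal.lt_ord.2 (Order.lt_succ _)

namespace TD2

variable {T : TD2 κ}

theorem RN.emb {q : List Ordinal.{u}} (h : T.RN q) {y : Ordinal.{u}} (hy : y ∈ T.U q) :
    Emb T.L (T.vx q y) (κ.ord ^ (T.nd q).γ) := by
  have hmain : ∀ (γ : Ordinal.{u}) (q : List Ordinal.{u}) (y : Ordinal.{u}), T.RN q →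
      (T.nd q).γ = γ → y ∈ T.U q → Emb T.L (T.vx q y) (κ.ord ^ γ) := by
    intro γ
    induction γ using WellFoundedLT.induction with
    | ind γ ih =>
      intro q y hq hqγ hy
      by_cases hγ : γ = 0
      · subst hγ
        refine ⟨fun _ => T.vx q y, ?_, ?_⟩
        · intro z _
          refine ⟨⟨q, y, hq, hy, hqγ, rfl⟩, le_rfl, ?_⟩
          rw [Ordinal.opow_zero]
          exact Order.lt_add_one_iff.2 le_rfl
        · intro z z' hz hz'
          rw [Ordinal.opow_zero, Order.lt_one_iff] at hz'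
          rw [hz'] at hz
          exact absurd hz not_lt_zero
      · refine emb_block T.P.reg hγ ?_
        intro j hj c hc
        have hq' : T.RN (j :: y :: q) := RN.step q y j hq hy (by rw [hqγ]; exact hj)
        obtain ⟨y', hy', h1, h2⟩ := hq'.exists_child c hc
        refine ⟨y', h1, h2, ?_⟩
        have h3 := ih j hj (j :: y :: q) y' hq' (by rw [TD.nd_step _ hq.ne_nil]) hy'
        have h4 : T.vx (j :: y :: q) y' = T.vx q y + κ.ord ^ j + κ.ord ^ j * y' := by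
          unfold TD.vx
          rw [TD.nd_step _ hq.ne_nil]
        rw [h4] at h3
        exact h3
  exact hmain _ q y h rfl hy

end TD2

/-- The main combinatorial statement. -/
theorem exists_indep (P : Setup κ) {θ : Cardinal.{u}} (hθ : ℵ₀ ≤ θ) (hθκ : θ < κ)
    (hdvd : κ.ord ∣ P.α) (hα : P.α < κ.ord ^ (θ.ord + 2)) :
    ∃ F : Ordinal.{u} → Ordinal.{u}, (∀ z < P.α, F z < P.α) ∧
      (∀ z z', z < z' → z' < P.α → F z < F z') ∧
      ∀ z < P.α, ∀ z' < P.α, z ≠ z' → ¬ P.R (F z) (F z') := by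
  classical
  have hκ := P.reg
  obtain ⟨μ, A, Γ, hμ, h1, h2, h3⟩ := exists_blocks hκ θ.ord P.α hdvd hα
  have hθκ' : θ.ord < κ.ord := Cardinal.ord_lt_ord.2 hθκ
  have hθlim : ∀ j < θ.ord, j + 1 < θ.ord := by
    intro j hj
    rw [← Order.succ_eq_add_one]
    exact (Cardinal.isSuccLimit_ord hθ).succ_lt hj
  have hθ0 : θ.ord ≠ 0 := by
    intro h
    have h4 := Cardinal.ord_le_ord.2 hθ
    rw [h, Cardinal.ord_aleph0] at h4
    exact absurd h4 (not_le.2 Ordinal.omega0_pos)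
  set rt : Ordinal.{u} → Ordinal.{u} → ND.{u} := fun i j =>
    if Γ i ≤ θ.ord then ⟨A i + κ.ord ^ j, j, j, ∅, id⟩ else ⟨A i, θ.ord, j + 1, ∅, id⟩ with hrt
  set V : Ordinal.{u} → Ordinal.{u} → Prop := fun i j =>
    i < μ ∧ j < θ.ord ∧ (Γ i ≤ θ.ord → j < Γ i) with hV
  have hVr : ∀ i j, V i j → i ≤ max μ θ.ord ∧ j ≤ max μ θ.ord ∧ (rt i j).γ ≤ max μ θ.ord ∧
      (rt i j).X = ∅ ∧ KG P (rt i j).a (rt i j).η (rt i j).γ (rt i j).X (rt i j).b := by
    rintro i j ⟨hi, hj, hjΓ⟩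
    refine ⟨hi.le.trans (le_max_left _ _), hj.le.trans (le_max_right _ _), ?_⟩
    obtain ⟨h4, h5, h6⟩ := h1 i hi
    by_cases hΓ : Γ i ≤ θ.ord
    · simp only [hrt, if_pos hΓ]
      refine ⟨hj.le.trans (le_max_right _ _), trivial, ?_⟩
      obtain ⟨σ, hσ, hσκ, hjσ⟩ := exists_regular hθ hθκ hj
      refine kg_exists P hσ hσκ hjσ le_rfl ?_ _
      rw [add_assoc, opow_add_opow_succ hκ]
      refine le_trans ?_ h6
      exact add_le_add_right (opow_mono hκ (Order.add_one_le_of_lt (hjΓ hΓ))) _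
    · simp only [hrt, if_neg hΓ]
      refine ⟨(hθlim j hj).le.trans (le_max_right _ _), trivial, ?_⟩
      obtain ⟨σ, hσ, hσκ, hjσ⟩ := exists_regular hθ hθκ (hθlim j hj)
      refine kg_exists P hσ hσκ hjσ (hθlim j hj).le ?_ _
      refine le_trans ?_ h6
      refine add_le_add_right (opow_mono hκ ?_) _
      exact Order.add_one_le_of_lt (not_le.1 hΓ)
  obtain ⟨T, hT⟩ := TD.exists_td2 ⟨P, rt, V, max μ θ.ord, max_lt hμ hθκ', hVr⟩
  have hTP : T.P = P := by rw [hT]
  have hTV : T.V = V := by rw [hT]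
  have hTrt : T.rt = rt := by rw [hT]
  have hemb : ∀ i < μ, Emb T.L (A i) (κ.ord ^ Γ i) := by
    intro i hi
    obtain ⟨h4, h5, h6⟩ := h1 i hi
    by_cases hΓ : Γ i ≤ θ.ord
    · refine emb_block hκ h4 ?_
      intro j hj c hc
      have hq : T.RN [j, i] := TD2.RN.root i j (by
        rw [hTV]
        exact ⟨hi, hj.trans_le hΓ, fun _ => hj⟩)
      obtain ⟨y, hy, h7, h8⟩ := hq.exists_child c hc
      refine ⟨y, h7, h8, ?_⟩
      have h9 := hq.emb hy
      unfold TD.vx at h9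
      rw [TD.nd_root, hTrt] at h9
      simp only [hrt, if_pos hΓ] at h9
      exact h9
    · have hΓ' : Γ i = θ.ord + 1 := le_antisymm h5 (Order.add_one_le_of_lt (not_le.1 hΓ))
      rw [hΓ']
      refine emb_top hκ hθ0 hθκ' ?_
      intro j hj c hc
      have hq : T.RN [j, i] := TD2.RN.root i j (by
        rw [hTV]
        exact ⟨hi, hj, fun h => absurd h hΓ⟩)
      obtain ⟨y, hy, h7, h8⟩ := hq.exists_child c hc
      refine ⟨y, h7, h8, ?_⟩
      have h9 := hq.emb hy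
      unfold TD.vx at h9
      rw [TD.nd_root, hTrt] at h9
      simp only [hrt, if_neg hΓ] at h9
      exact h9
  have hex : ∀ z, ∃ i, z < P.α → (i < μ ∧ A i ≤ z ∧ z < A i + κ.ord ^ Γ i) := by
    intro z
    by_cases hz : z < P.α
    · obtain ⟨i, hi⟩ := h3 z hz
      exact ⟨i, fun _ => hi⟩
    · exact ⟨0, fun h => absurd h hz⟩
  choose I hI using hex
  have hF : ∀ i, ∃ F : Ordinal.{u} → Ordinal.{u}, i < μ →
      ((∀ z < κ.ord ^ Γ i, F z ∈ T.L ∧ A i ≤ F z ∧ F z < A i + κ.ord ^ Γ i) ∧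
        ∀ z z', z < z' → z' < κ.ord ^ Γ i → F z < F z') := by
    intro i
    by_cases hi : i < μ
    · obtain ⟨F, hF⟩ := hemb i hi
      exact ⟨F, fun _ => hF⟩
    · exact ⟨id, fun h => absurd h hi⟩
  choose F hF using hF
  have hsub : ∀ z < P.α, z - A (I z) < κ.ord ^ Γ (I z) := by
    intro z hz
    obtain ⟨_, h4, h5⟩ := hI z hz
    rw [Ordinal.sub_lt_of_le h4]
    exact h5
  have hmem : ∀ z < P.α, F (I z) (z - A (I z)) ∈ T.L := fun z hz =>
    ((hF (I z) (hI z hz).1).1 _ (hsub z hz)).1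
  have hmono : ∀ z z', z < z' → z' < P.α →
      F (I z) (z - A (I z)) < F (I z') (z' - A (I z')) := by
    intro z z' hzz hz'
    have hz := hzz.trans hz'
    obtain ⟨hi, h4, h5⟩ := hI z hz
    obtain ⟨hi', h4', h5'⟩ := hI z' hz'
    rcases lt_trichotomy (I z) (I z') with h | h | h
    · have h6 := ((hF (I z) hi).1 _ (hsub z hz)).2.2
      have h7 := ((hF (I z') hi').1 _ (hsub z' hz')).2.1
      exact (h6.trans_le (h2 _ _ h hi')).trans_le h7
    · have hs' := hsub z' hz'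
      rw [← h] at hs' h4' ⊢
      refine (hF (I z) hi).2 _ _ ?_ hs'
      rw [Ordinal.sub_lt_of_le h4, Ordinal.add_sub_cancel_of_le h4']
      exact hzz
    · exfalso
      have h6 := h5'.trans_le (h2 _ _ h hi)
      exact absurd (h6.trans_le h4) (not_lt.2 hzz.le)
  have hlt : ∀ z < P.α, F (I z) (z - A (I z)) < P.α := by
    intro z hz
    have := TD2.L_lt (hmem z hz)
    rwa [hTP] at this
  refine ⟨fun z => F (I z) (z - A (I z)), hlt, hmono, ?_⟩
  intro z hz z' hz' hzz hR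
  have hne : F (I z) (z - A (I z)) ≠ F (I z') (z' - A (I z')) := by
    rcases lt_or_gt_of_ne hzz with h | h
    · exact (hmono z z' h hz').ne
    · exact (hmono z' z h hz).ne'
  have := TD2.L_indep (hmem z hz) (hmem z' hz') hne
  rw [hTP] at this
  exact this hR

/-- Let `κ` be a regular uncountable cardinal and `θ < κ` an infinite cardinal.  If `α` is a multiple
of `κ` and `α < κ^(θ+2)` (ordinal exponentiation), then every graph on `α` has an infinite path or
an independent set of order type `α`. -/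
theorem path_or_indep (hκ : κ.IsRegular) (hκ0 : ℵ₀ < κ) {θ : Cardinal.{u}} (hθ : ℵ₀ ≤ θ)
    (hθκ : θ < κ) (α : Ordinal.{u}) (hdvd : κ.ord ∣ α) (hα : α < κ.ord ^ (θ.ord + 2))
    (G : SimpleGraph (Set.Iio α)) :
    (∃ f : ℕ → Set.Iio α, Function.Injective f ∧ ∀ n, G.Adj (f n) (f (n + 1))) ∨
      ∃ S : Set (Set.Iio α), (∀ x ∈ S, ∀ y ∈ S, ¬ G.Adj x y) ∧ Nonempty (S ≃o Set.Iio α) := by
  classical
  by_cases hpath : ∃ f : ℕ → Set.Iio α, Function.Injective f ∧ ∀ n, G.Adj (f n) (f (n + 1))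
  · exact Or.inl hpath
  right
  have hcard : α.card ≤ κ := by
    refine (Ordinal.card_le_card hα.le).trans ?_
    refine (Ordinal.card_opow_le _ _).trans ?_
    refine max_le hκ0.le (max_le ?_ ?_)
    · rw [Cardinal.card_ord]
    · rw [Ordinal.card_add, Cardinal.card_ord]
      refine (Cardinal.add_lt_of_lt hκ.aleph0_le hθκ ?_).le
      refine lt_of_lt_of_le ?_ hκ0.le
      have h2 : (2 : Ordinal.{u}) = ((2 : ℕ) : Ordinal.{u}) := rfl
      rw [h2, Ordinal.card_nat]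
      exact Cardinal.natCast_lt_aleph0
  obtain ⟨φ⟩ : Nonempty (Set.Iio α ↪ Set.Iio (κ.ord : Ordinal.{u})) := by
    rw [← Cardinal.le_def, mk_Iio_ordinal, mk_Iio_ordinal, Cardinal.lift_le, Cardinal.card_ord]
    exact hcard
  set P : Setup κ :=
    { reg := hκ
      unc := hκ0
      α := α
      R := fun u v => ∃ (hu : u < α) (hv : v < α), G.Adj ⟨u, hu⟩ ⟨v, hv⟩
      symm := by
        rintro u v ⟨hu, hv, h⟩
        exact ⟨hv, hu, h.symm⟩
      dom := by
        rintro u v ⟨hu, _⟩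
        exact hu
      nopath := by
        rintro ⟨f, hf, hadj⟩
        apply hpath
        refine ⟨fun n => ⟨f n, (hadj n).1⟩, ?_, ?_⟩
        · intro n m h
          exact hf (congrArg Subtype.val h)
        · intro n
          exact (hadj n).2.2
      e := fun v => if h : v < α then (φ ⟨v, h⟩).1 else 0
      e_lt := by
        intro v hv
        rw [dif_pos hv]
        exact (φ ⟨v, hv⟩).2
      e_inj := by
        intro u hu v hv h
        rw [dif_pos hu, dif_pos hv] at h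
        exact congrArg Subtype.val (φ.injective (Subtype.ext h)) } with hP
  obtain ⟨F, hF1, hF2, hF3⟩ := exists_indep P hθ hθκ hdvd hα
  set f : Set.Iio α → Set.Iio α := fun z => ⟨F z.1, hF1 z.1 z.2⟩ with hf
  have hfm : StrictMono f := by
    intro x y hxy
    exact hF2 x.1 y.1 hxy y.2
  refine ⟨Set.range f, ?_, ⟨hfm.orderIso.symm⟩⟩
  rintro _ ⟨x, rfl⟩ _ ⟨y, rfl⟩ hadj
  by_cases hxy : x = y
  · subst hxy
    exact G.irrefl hadj
  · exact hF3 x.1 x.2 y.1 y.2 (fun h => hxy (Subtype.ext h)) ⟨hF1 x.1 x.2, hF1 y.1 y.2, hadj⟩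

end Pool.Agent.Lib.H45EHM
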