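import Pool.Agent.Lib.H45EHM.Base

/-!
# Graphs without an infinite path: finite traces on closed sets
-/

set_option autoImplicit false

open Cardinal Order Set

universe u

namespace Pool.Agent.Lib.H45EHM

theorem exists_path {V : Type*} (R : V → V → Prop) (good : Finset V → V → Prop)
    (h0 : ∃ F u, u ∈ F ∧ good F u)
    (step : ∀ F u, u ∈ F → good F u → ∃ (w : V) (F' : Finset V), w ∉ F ∧ F ⊆ F' ∧ w ∈ F' ∧ R u w ∧
      good F' w) :
    ∃ f : ℕ → V, Function.Injective f ∧ ∀ n, R (f n) (f (n + 1)) := by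
  classical
  let S := {p : Finset V × V // p.2 ∈ p.1 ∧ good p.1 p.2}
  have h1 : ∀ p : S, ∃ q : S, q.1.2 ∉ p.1.1 ∧ p.1.1 ⊆ q.1.1 ∧ R p.1.2 q.1.2 := by
    rintro ⟨⟨F, u⟩, h, h'⟩
    obtain ⟨w, F', h1, h2, h3, h4, h5⟩ := step F u h h'
    exact ⟨⟨⟨F', w⟩, h3, h5⟩, h1, h2, h4⟩
  choose nx h2 h3 h4 using h1
  obtain ⟨F, u, hu, hg⟩ := h0
  let s : ℕ → S := fun n => nx^[n] ⟨⟨F, u⟩, hu, hg⟩
  have hs : ∀ n, s (n + 1) = nx (s n) := fun n => Function.iterate_succ_apply' nx n _
  have hsub : ∀ n m, n ≤ m → (s n).1.1 ⊆ (s m).1.1 := by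
    intro n m hnm
    induction m, hnm using Nat.le_induction with
    | base => exact Finset.Subset.refl _
    | succ m _ ih =>
      rw [hs]
      exact ih.trans (h3 _)
  have hne : ∀ n m, n < m → (s n).1.2 ≠ (s m).1.2 := by
    intro n m hnm heq
    obtain ⟨k, rfl⟩ : ∃ k, m = k + 1 := ⟨m - 1, by omega⟩
    have h5 : (s n).1.2 ∈ (s k).1.1 := hsub n k (by omega) (s n).2.1
    rw [heq, hs] at h5
    exact h2 _ h5
  refine ⟨fun n => (s n).1.2, ?_, ?_⟩
  · intro n m hnm
    rcases lt_trichotomy n m with h | h | h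
    · exact absurd hnm (hne n m h)
    · exact h
    · exact absurd hnm.symm (hne m n h)
  · intro n
    show R (s n).1.2 (s (n + 1)).1.2
    rw [hs]
    exact h4 _

/-- A set `X` of vertices that contains every finite common neighbourhood of two of its members
has only finite traces, if the graph has no infinite path. -/
theorem finite_trace {V : Type*} (R : V → V → Prop) (hsymm : ∀ u v, R u v → R v u)
    (hno : ¬ ∃ f : ℕ → V, Function.Injective f ∧ ∀ n, R (f n) (f (n + 1)))
    (X : Set V) (hX : ∀ u ∈ X, ∀ v ∈ X, {w | R u w ∧ R v w}.Finite → ∀ w, R u w → R v w → w ∈ X)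
    (v : V) (hv : v ∉ X) : {u | R v u ∧ u ∈ X}.Finite := by
  classical
  by_contra hinf
  set A : Set V := {u | R v u ∧ u ∈ X} with hA
  have hinf' : A.Infinite := hinf
  apply hno
  have hcom : ∀ u ∈ A, ∀ u' ∈ A, {w | R u w ∧ R u' w}.Infinite := by
    intro u hu u' hu' hfin
    exact hv (hX u hu.2 u' hu'.2 hfin v (hsymm _ _ hu.1) (hsymm _ _ hu'.1))
  refine exists_path R (fun F u => u ∈ A ∨ ∃ x ∈ A, x ∉ F ∧ R u x) ?_ ?_
  · obtain ⟨u, hu⟩ := hinf'.nonempty
    exact ⟨{u}, u, Finset.mem_singleton_self u, Or.inl hu⟩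
  · intro F u hu hg
    rcases hg with hg | ⟨x, hx, hxF, hux⟩
    · obtain ⟨x, hx, hxF⟩ := hinf'.exists_notMem_finset F
      obtain ⟨w, hw, hwF⟩ := (hcom u hg x hx).exists_notMem_finset (insert x F)
      refine ⟨w, insert w F, ?_, Finset.subset_insert _ _, Finset.mem_insert_self _ _, hw.1,
        Or.inr ⟨x, hx, ?_, hsymm _ _ hw.2⟩⟩
      · exact fun h => hwF (Finset.mem_insert_of_mem h)
      · rw [Finset.mem_insert]
        rintro (h | h)
        · exact hwF (h ▸ Finset.mem_insert_self _ _)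
        · exact hxF h
    · exact ⟨x, insert x F, hxF, Finset.subset_insert _ _, Finset.mem_insert_self _ _, hux,
        Or.inl hx⟩

/-- The data of the problem: a symmetric relation `R` on `Iio α` without an infinite path, and an
injection `e` of `Iio α` into `κ.ord`. -/
structure Setup (κ : Cardinal.{u}) where
  reg : κ.IsRegular
  unc : ℵ₀ < κ
  α : Ordinal.{u}
  R : Ordinal.{u} → Ordinal.{u} → Prop
  symm : ∀ u v, R u v → R v u
  dom : ∀ u v, R u v → u < α
  nopath : ¬ ∃ f : ℕ → Ordinal.{u}, Function.Injective f ∧ ∀ n, R (f n) (f (n + 1))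
  e : Ordinal.{u} → Ordinal.{u}
  e_lt : ∀ v < α, e v < κ.ord
  e_inj : ∀ u < α, ∀ v < α, e u = e v → u = v

namespace Setup

variable {κ : Cardinal.{u}} (P : Setup κ)

/-- the neighbours of `v` of index less than `x` have index less than `b` -/
def Tr (v x b : Ordinal.{u}) : Prop := ∀ w, P.R v w → P.e w < x → P.e w < b

theorem Tr.mono {P : Setup κ} {v x b b' : Ordinal.{u}} (h : P.Tr v x b) (hb : b ≤ b') :
    P.Tr v x b' := fun w h1 h2 => (h w h1 h2).trans_le hb

/-- for almost all `x`, every vertex of index at least `x` has its trace bounded below `x` -/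
theorem exists_trace : ∃ f : Ordinal.{u} → Ordinal.{u}, (∀ a < κ.ord, f a < κ.ord) ∧
    ∀ x, Cl f x → x < κ.ord → ∀ v < P.α, x ≤ P.e v → ∃ b < x, P.Tr v x b := by
  classical
  have h1 : ∀ a b : Ordinal.{u}, ∃ c, c < κ.ord ∧ ∀ u v, u < P.α → v < P.α → P.e u = a → P.e v = b →
      {w | P.R u w ∧ P.R v w}.Finite → ∀ w, P.R u w → P.R v w → P.e w < c := by
    intro a b
    by_cases hex : ∃ u v, u < P.α ∧ v < P.α ∧ P.e u = a ∧ P.e v = b ∧
        {w | P.R u w ∧ P.R v w}.Finite
    · obtain ⟨u, v, hu, hv, hua, hvb, hfin⟩ := hex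
      have h2 : ∃ c, c < κ.ord ∧ ∀ w ∈ hfin.toFinset, P.e w < c := by
        have h3 : ∀ F : Finset Ordinal.{u}, (∀ w ∈ F, w < P.α) → ∃ c, c < κ.ord ∧
            ∀ w ∈ F, P.e w < c := by
          intro F
          induction F using Finset.induction_on with
          | empty => exact fun _ => ⟨0, P.reg.ord_pos, by simp⟩
          | insert w F _ ih =>
            intro hF
            obtain ⟨c, hc, hc'⟩ := ih fun w hw => hF w (Finset.mem_insert_of_mem hw)
            have h4 := succ_lt P.reg (P.e_lt w (hF w (Finset.mem_insert_self _ _)))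
            refine ⟨max c (P.e w + 1), max_lt hc h4, ?_⟩
            intro w' hw'
            rcases Finset.mem_insert.1 hw' with rfl | hw'
            · exact (Order.lt_add_one_iff.2 le_rfl).trans_le (le_max_right _ _)
            · exact (hc' w' hw').trans_le (le_max_left _ _)
        refine h3 _ ?_
        intro w hw
        rw [Set.Finite.mem_toFinset] at hw
        exact P.dom w u (P.symm _ _ hw.1)
      obtain ⟨c, hc, hc'⟩ := h2
      refine ⟨c, hc, ?_⟩
      intro u' v' hu' hv' hua' hvb' _ w hw1 hw2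
      obtain rfl := P.e_inj u hu u' hu' (hua.trans hua'.symm)
      obtain rfl := P.e_inj v hv v' hv' (hvb.trans hvb'.symm)
      exact hc' w (by rw [Set.Finite.mem_toFinset]; exact ⟨hw1, hw2⟩)
    · refine ⟨0, P.reg.ord_pos, ?_⟩
      intro u v hu hv hua hvb hfin
      exact absurd ⟨u, v, hu, hv, hua, hvb, hfin⟩ hex
  choose c hc hc' using h1
  obtain ⟨f, hf1, hf2⟩ := exists_closure2 P.reg P.unc c fun a _ b _ => hc a b
  refine ⟨fun a => max (f a) (a + 1), fun a ha => max_lt (hf1 a ha) (succ_lt P.reg ha), ?_⟩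
  intro x hx hxκ v hv hxv
  have hcl := hx.max_left
  have hlim : ∀ a < x, a + 1 < x := hx.max_right.2
  have hfin : {w | P.R v w ∧ w ∈ {w | w < P.α ∧ P.e w < x}}.Finite := by
    refine finite_trace P.R P.symm P.nopath _ ?_ v ?_
    · rintro u ⟨hu, hux⟩ v' ⟨hv', hvx⟩ hfin w hw1 hw2
      refine ⟨P.dom w u (P.symm _ _ hw1), ?_⟩
      exact (hc' _ _ u v' hu hv' rfl rfl hfin w hw1 hw2).trans (hf2 x hcl hxκ.le _ hux _ hvx)
    · rintro ⟨_, h⟩
      exact absurd hxv (not_le.2 h)
  have h2 : ∀ F : Finset Ordinal.{u}, (∀ w ∈ F, P.e w < x) → ∃ b, b < x ∧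
      ∀ w ∈ F, P.e w < b := by
    intro F
    induction F using Finset.induction_on with
    | empty => exact fun _ => ⟨0, hx.1, by simp⟩
    | insert w F _ ih =>
      intro hF
      obtain ⟨b, hb, hb'⟩ := ih fun w hw => hF w (Finset.mem_insert_of_mem hw)
      have h4 := hlim _ (hF w (Finset.mem_insert_self _ _))
      refine ⟨max b (P.e w + 1), max_lt hb h4, ?_⟩
      intro w' hw'
      rcases Finset.mem_insert.1 hw' with rfl | hw'
      · exact (Order.lt_add_one_iff.2 le_rfl).trans_le (le_max_right _ _)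
      · exact (hb' w' hw').trans_le (le_max_left _ _)
  obtain ⟨b, hb, hb'⟩ := h2 hfin.toFinset (by
    intro w hw
    rw [Set.Finite.mem_toFinset] at hw
    exact hw.2.2)
  refine ⟨b, hb, ?_⟩
  intro w hw hwx
  exact hb' w (by
    rw [Set.Finite.mem_toFinset]
    exact ⟨hw, P.dom w v (P.symm _ _ hw), hwx⟩)

end Setup

end Pool.Agent.Lib.H45EHM
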