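import Pool.Agent.Lib.H45EHM.Good
import Pool.Agent.Lib.H45EHM.Assign

/-!
# The tree of good nodes and the independent set of its leaves
-/

set_option autoImplicit false

open Cardinal Order Set

universe u

namespace Pool.Agent.Lib.H45EHM

variable {κ : Cardinal.{u}}

/-- node data: the children are the blocks `[a + κ^η y, a + κ^η y + κ^γ)` -/
structure ND where
  a : Ordinal.{u}
  η : Ordinal.{u}
  γ : Ordinal.{u}
  X : Finset Ordinal.{u}
  b : Ordinal.{u} → Ordinal.{u}

open Classical in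
/-- the bound chosen at a node -/
noncomputable def gf (P : Setup κ) (d : ND.{u}) : Ordinal.{u} :=
  if h : KG P d.a d.η d.γ d.X d.b then h.choose else 0

open Classical in
/-- the stationary set chosen at a node -/
noncomputable def Sf (P : Setup κ) (d : ND.{u}) : Set Ordinal.{u} :=
  if h : KG P d.a d.η d.γ d.X d.b then h.choose_spec.choose else ∅

theorem gf_lt (P : Setup κ) (d : ND.{u}) : gf P d < κ.ord := by
  unfold gf
  split_ifs with h
  · exact h.choose_spec.choose_spec.1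
  · exact P.reg.ord_pos

theorem stat_Sf {P : Setup κ} {d : ND.{u}} (h : KG P d.a d.η d.γ d.X d.b) :
    Stat κ (Sf P d) := by
  unfold Sf
  rw [dif_pos h]
  exact h.choose_spec.choose_spec.2.1

theorem Sf_spec {P : Setup κ} {d : ND.{u}} (h : KG P d.a d.η d.γ d.X d.b) {y : Ordinal.{u}}
    (hy : y ∈ Sf P d) : (gf P d < y ∧ y < κ.ord ∧ ∀ x ∈ d.X, x < y) ∧
      Good P (d.a + κ.ord ^ d.η * y) d.γ (insert y d.X) (Function.update d.b y (gf P d)) := by
  unfold Sf at hy
  unfold gf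
  rw [dif_pos h] at hy ⊢
  exact h.choose_spec.choose_spec.2.2 y hy

/-- the root nodes -/
structure TD (κ : Cardinal.{u}) where
  P : Setup κ
  rt : Ordinal.{u} → Ordinal.{u} → ND.{u}
  V : Ordinal.{u} → Ordinal.{u} → Prop
  μ0 : Ordinal.{u}
  hμ0 : μ0 < κ.ord
  hV : ∀ i j, V i j → i ≤ μ0 ∧ j ≤ μ0 ∧ (rt i j).γ ≤ μ0 ∧ (rt i j).X = ∅ ∧
    KG P (rt i j).a (rt i j).η (rt i j).γ (rt i j).X (rt i j).b

namespace TD

variable (T : TD κ)

/-- the data of the node with a given path -/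
noncomputable def nd : List Ordinal.{u} → ND.{u}
  | j :: i :: [] => T.rt i j
  | j :: y :: (x :: q) =>
    { a := (nd (x :: q)).a + κ.ord ^ (nd (x :: q)).η * y + κ.ord ^ j
      η := j
      γ := j
      X := insert y (nd (x :: q)).X
      b := Function.update (nd (x :: q)).b y (gf T.P (nd (x :: q))) }
  | _ => T.rt 0 0

theorem nd_root (i j : Ordinal.{u}) : T.nd [j, i] = T.rt i j := by
  rw [nd]

theorem nd_step {q : List Ordinal.{u}} (hq : q ≠ []) (j y : Ordinal.{u}) :
    T.nd (j :: y :: q) =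
    { a := (T.nd q).a + κ.ord ^ (T.nd q).η * y + κ.ord ^ j
      η := j
      γ := j
      X := insert y (T.nd q).X
      b := Function.update (T.nd q).b y (gf T.P (T.nd q)) } := by
  cases q with
  | nil => exact absurd rfl hq
  | cons x q => rw [nd]

/-- the vertex at which the child `y` of the node with path `q` starts -/
noncomputable def vx (q : List Ordinal.{u}) (y : Ordinal.{u}) : Ordinal.{u} :=
  (T.nd q).a + κ.ord ^ (T.nd q).η * y

end TD

/-- the tree together with a closed unbounded set `C` and an assignment `σ` -/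
structure TD2 (κ : Cardinal.{u}) extends TD κ where
  C : Set Ordinal.{u}
  hC0 : ∀ δ ∈ C, μ0 < δ
  hC1 : ∀ δ ∈ C, ∀ q : List Ordinal.{u}, (∀ t ∈ q, t < δ) → gf P (toTD.nd q) < δ
  hC2 : ∀ δ ∈ C, ∀ (q : List Ordinal.{u}) (y : Ordinal.{u}), (∀ t ∈ q, t < δ) → y < δ →
    toTD.vx q y < P.α → P.e (toTD.vx q y) < δ
  σ : Ordinal.{u} → List Ordinal.{u}
  hσ : ∀ q : List Ordinal.{u}, (∀ t ∈ q, t < κ.ord) →
    KG P (toTD.nd q).a (toTD.nd q).η (toTD.nd q).γ (toTD.nd q).X (toTD.nd q).b →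
    ∀ a < κ.ord, ∃ y ∈ Sf P (toTD.nd q), y ∈ C ∧ a < y ∧ y < κ.ord ∧ σ y = q

theorem TD.exists_td2 (T : TD κ) : ∃ T' : TD2 κ, T'.toTD = T := by
  classical
  have hκ := T.P.reg
  have hκ0 := T.P.unc
  obtain ⟨f1, hf1, hf1'⟩ := exists_list_closure hκ hκ0 (fun q => gf T.P (T.nd q))
    fun q _ => gf_lt _ _
  obtain ⟨f2, hf2, hf2'⟩ := exists_list_closure hκ hκ0 (fun p => match p with
      | y :: q => if T.vx q y < T.P.α then T.P.e (T.vx q y) else 0
      | [] => 0) (by
        intro p _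
        match p with
        | [] => exact hκ.ord_pos
        | y :: q =>
          by_cases h : T.vx q y < T.P.α
          · simp only [if_pos h]
            exact T.P.e_lt _ h
          · simp only [if_neg h]
            exact hκ.ord_pos)
  set fC : Ordinal.{u} → Ordinal.{u} := fun a => max (max (f1 a) (f2 a)) T.μ0 with hfC
  have hfC' : ∀ a < κ.ord, fC a < κ.ord := fun a ha =>
    max_lt (max_lt (hf1 a ha) (hf2 a ha)) T.hμ0
  set C : Set Ordinal.{u} := {δ | Cl fC δ ∧ δ < κ.ord} with hC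
  set SS : List Ordinal.{u} → Set Ordinal.{u} := fun q =>
    if KG T.P (T.nd q).a (T.nd q).η (T.nd q).γ (T.nd q).X (T.nd q).b then
      {y | y ∈ Sf T.P (T.nd q) ∧ y ∈ C} else Set.univ with hSS
  obtain ⟨σ, hσ⟩ := exists_assign hκ SS (by
    intro q _ a ha
    by_cases h : KG T.P (T.nd q).a (T.nd q).η (T.nd q).γ (T.nd q).X (T.nd q).b
    · obtain ⟨y, hy, h1, h2⟩ := ((stat_Sf h).inter_cl fC hfC').exists_gt ha
      refine ⟨y, ?_, h1, h2⟩
      simp only [hSS, if_pos h]
      exact ⟨hy.1, hy.2, h2⟩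
    · refine ⟨a + 1, ?_, Order.lt_add_one_iff.2 le_rfl, succ_lt hκ ha⟩
      simp only [hSS, if_neg h, Set.mem_univ])
  refine ⟨⟨T, C, ?_, ?_, ?_, σ, ?_⟩, rfl⟩
  · rintro δ ⟨hδ, _⟩
    exact hδ.max_right.2 0 hδ.1
  · rintro δ ⟨hδ, hδκ⟩ q hq
    exact hf1' δ hδ.max_left.max_left hδκ.le q hq
  · rintro δ ⟨hδ, hδκ⟩ q y hq hy hv
    have h1 := hf2' δ hδ.max_left.max_right hδκ.le (y :: q) (by
      intro t ht
      rcases List.mem_cons.1 ht with rfl | ht
      · exact hy
      · exact hq t ht)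
    simp only [if_pos hv] at h1
    exact h1
  · intro q hq hKG a ha
    obtain ⟨y, hy, h1, h2, h3⟩ := hσ q hq a ha
    simp only [hSS, if_pos hKG] at hy
    exact ⟨y, hy.1, hy.2, h1, h2, h3⟩

namespace TD2

variable (T : TD2 κ)

/-- the children used at the node with path `q` -/
def U (q : List Ordinal.{u}) : Set Ordinal.{u} :=
  {y | y ∈ Sf T.P (T.nd q) ∧ y ∈ T.C ∧ y < κ.ord ∧ T.σ y = q}

/-- the paths of the nodes of the tree -/
inductive RN : List Ordinal.{u} → Prop
  | root (i j : Ordinal.{u}) : T.V i j → RN [j, i]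
  | step (q : List Ordinal.{u}) (y j : Ordinal.{u}) : RN q → y ∈ T.U q → j < (T.nd q).γ →
      RN (j :: y :: q)

variable {T}

theorem RN.ne_nil {q : List Ordinal.{u}} (h : T.RN q) : q ≠ [] := by
  cases h <;> simp

theorem RN.kg {q : List Ordinal.{u}} (h : T.RN q) :
    KG T.P (T.nd q).a (T.nd q).η (T.nd q).γ (T.nd q).X (T.nd q).b := by
  induction h with
  | root i j h =>
    rw [TD.nd_root]
    exact (T.hV i j h).2.2.2.2
  | step q y j hq hy hj ih =>
    rw [TD.nd_step _ hq.ne_nil]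
    exact (Sf_spec ih hy.1).2.kg hj

theorem RN.gamma_le {q : List Ordinal.{u}} (h : T.RN q) : (T.nd q).γ ≤ T.μ0 := by
  induction h with
  | root i j h =>
    rw [TD.nd_root]
    exact (T.hV i j h).2.2.1
  | step q y j hq hy hj ih =>
    rw [TD.nd_step _ hq.ne_nil]
    exact hj.le.trans ih

theorem RN.lt_K {q : List Ordinal.{u}} (h : T.RN q) : ∀ t ∈ q, t < κ.ord := by
  induction h with
  | root i j h =>
    intro t ht
    simp only [List.mem_cons, List.not_mem_nil, or_false] at ht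
    rcases ht with rfl | rfl
    · exact (T.hV _ _ h).2.1.trans_lt T.hμ0
    · exact (T.hV _ _ h).1.trans_lt T.hμ0
  | step q y j hq hy hj ih =>
    intro t ht
    simp only [List.mem_cons] at ht
    rcases ht with rfl | rfl | ht
    · exact hj.trans_le (hq.gamma_le.trans T.hμ0.le)
    · exact hy.2.2.1
    · exact ih t ht

theorem RN.entries {q : List Ordinal.{u}} (h : T.RN q) {δ : Ordinal.{u}} (hδ : δ ∈ T.C)
    (hX : ∀ x ∈ (T.nd q).X, x < δ) : ∀ t ∈ q, t < δ := by
  induction h with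
  | root i j h =>
    intro t ht
    simp only [List.mem_cons, List.not_mem_nil, or_false] at ht
    rcases ht with rfl | rfl
    · exact (T.hV _ _ h).2.1.trans_lt (T.hC0 δ hδ)
    · exact (T.hV _ _ h).1.trans_lt (T.hC0 δ hδ)
  | step q y j hq hy hj ih =>
    rw [TD.nd_step _ hq.ne_nil] at hX
    intro t ht
    simp only [List.mem_cons] at ht
    rcases ht with rfl | rfl | ht
    · exact (hj.trans_le hq.gamma_le).trans (T.hC0 δ hδ)
    · exact hX _ (Finset.mem_insert_self _ _)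
    · exact ih (fun x hx => hX x (Finset.mem_insert_of_mem hx)) t ht

theorem RN.coord {q : List Ordinal.{u}} (h : T.RN q) :
    ∀ x ∈ (T.nd q).X, x ∈ T.C ∧ (T.nd (T.σ x)).γ ≠ 0 := by
  induction h with
  | root i j h =>
    rw [TD.nd_root, (T.hV i j h).2.2.2.1]
    simp
  | step q y j hq hy hj ih =>
    rw [TD.nd_step _ hq.ne_nil]
    intro x hx
    rcases Finset.mem_insert.1 hx with rfl | hx
    · refine ⟨hy.2.1, ?_⟩
      rw [hy.2.2.2]
      exact (lt_of_le_of_lt zero_le hj).ne'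
    · exact ih x hx

/-- the bounds are small -/
def SmallB (T : TD2 κ) (X : Finset Ordinal.{u}) (b : Ordinal.{u} → Ordinal.{u}) : Prop :=
  ∀ x ∈ X, ∀ δ ∈ T.C, (∀ x' ∈ X, x' < x → x' < δ) → b x < δ

theorem smallB_step {q : List Ordinal.{u}} (h : T.RN q) {y : Ordinal.{u}} (hy : y ∈ T.U q)
    (hb : T.SmallB (T.nd q).X (T.nd q).b) :
    T.SmallB (insert y (T.nd q).X) (Function.update (T.nd q).b y (gf T.P (T.nd q))) := by
  have hX := (Sf_spec h.kg hy.1).1.2.2
  intro x hx δ hδ hlt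
  by_cases hxy : x = y
  · subst hxy
    rw [Function.update_self]
    refine T.hC1 δ hδ q (h.entries hδ ?_)
    exact fun x' hx' => hlt x' (Finset.mem_insert_of_mem hx') (hX x' hx')
  · rw [Function.update_of_ne hxy]
    refine hb x ((Finset.mem_insert.1 hx).resolve_left hxy) δ hδ ?_
    exact fun x' hx' => hlt x' (Finset.mem_insert_of_mem hx')

theorem RN.smallB {q : List Ordinal.{u}} (h : T.RN q) : T.SmallB (T.nd q).X (T.nd q).b := by
  induction h with
  | root i j h =>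
    rw [TD.nd_root, (T.hV i j h).2.2.2.1]
    intro x hx
    simp at hx
  | step q y j hq hy hj ih =>
    rw [TD.nd_step _ hq.ne_nil]
    exact smallB_step hq hy ih

theorem RN.exists_child {q : List Ordinal.{u}} (h : T.RN q) :
    ∀ a < κ.ord, ∃ y ∈ T.U q, a < y ∧ y < κ.ord := by
  intro a ha
  obtain ⟨y, h1, h2, h3, h4, h5⟩ := T.hσ q h.lt_K h.kg a ha
  exact ⟨y, ⟨h1, h2, h4, h5⟩, h3, h4⟩

/-- the set of leaves -/
def L (T : TD2 κ) : Set Ordinal.{u} :=
  {v | ∃ q y, T.RN q ∧ y ∈ T.U q ∧ (T.nd q).γ = 0 ∧ v = T.vx q y}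

theorem L_lt {v : Ordinal.{u}} (hv : v ∈ T.L) : v < T.P.α := by
  obtain ⟨q, y, hq, hy, h0, rfl⟩ := hv
  exact ((Sf_spec hq.kg hy.1).2.leaf_inv h0).1

theorem leaves_aux {q q' : List Ordinal.{u}} {y y' : Ordinal.{u}} (hq : T.RN q) (hy : y ∈ T.U q)
    (h0 : (T.nd q).γ = 0) (hq' : T.RN q') (hy' : y' ∈ T.U q') (h0' : (T.nd q').γ = 0)
    (hlt : y' < y) : ¬ T.P.R (T.vx q y) (T.vx q' y') := by
  intro hR
  have hg := Sf_spec hq.kg hy.1
  have hg' := Sf_spec hq'.kg hy'.1
  obtain ⟨hv, htr⟩ := hg.2.leaf_inv h0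
  obtain ⟨hv', htr'⟩ := hg'.2.leaf_inv h0'
  have hsm := smallB_step hq hy hq.smallB
  -- the least coordinate above `y'`
  obtain ⟨x, hx, hmin⟩ : ∃ x ∈ (insert y (T.nd q).X).filter (fun x => y' < x),
      ∀ x' ∈ (insert y (T.nd q).X).filter (fun x => y' < x), x ≤ x' := by
    have hne : ((insert y (T.nd q).X).filter (fun x => y' < x)).Nonempty :=
      ⟨y, Finset.mem_filter.2 ⟨Finset.mem_insert_self _ _, hlt⟩⟩
    exact ⟨_, Finset.min'_mem _ hne, fun x' hx' => Finset.min'_le _ _ hx'⟩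
  obtain ⟨hxX, hyx⟩ := Finset.mem_filter.1 hx
  have hxC : x ∈ T.C := by
    rcases Finset.mem_insert.1 hxX with rfl | h
    · exact hy.2.1
    · exact (hq.coord x h).1
  have hy'X : y' ∉ insert y (T.nd q).X := by
    intro h
    rcases Finset.mem_insert.1 h with h | h
    · exact absurd h hlt.ne
    · apply (hq.coord y' h).2
      rw [hy'.2.2.2]
      exact h0'
  have h1 : T.P.e (T.vx q' y') < x := by
    refine T.hC2 x hxC q' y' (hq'.entries hxC ?_) hyx hv'
    exact fun x' hx' => (hg'.1.2.2 x' hx').trans hyx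
  have h2 := (htr x hxX).2 _ hR h1
  have h3 : Function.update (T.nd q).b y (gf T.P (T.nd q)) x < y' := by
    refine hsm x hxX y' hy'.2.1 ?_
    intro x' hx' hx'x
    by_contra hge
    have h4 : y' < x' := lt_of_le_of_ne (not_lt.1 hge) (by
      rintro rfl
      exact hy'X hx')
    exact absurd (hmin x' (Finset.mem_filter.2 ⟨hx', h4⟩)) (not_le.2 hx'x)
  have h4 := (htr' y' (Finset.mem_insert_self _ _)).1
  exact absurd (h2.trans h3) (not_lt.2 h4)

theorem L_indep {v v' : Ordinal.{u}} (hv : v ∈ T.L) (hv' : v' ∈ T.L) (hne : v ≠ v') :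
    ¬ T.P.R v v' := by
  obtain ⟨q, y, hq, hy, h0, rfl⟩ := hv
  obtain ⟨q', y', hq', hy', h0', rfl⟩ := hv'
  rcases lt_trichotomy y y' with h | h | h
  · exact fun hR => leaves_aux hq' hy' h0' hq hy h0 h (T.P.symm _ _ hR)
  · subst h
    have : q = q' := by rw [← hy.2.2.2, hy'.2.2.2]
    subst this
    exact absurd rfl hne
  · exact leaves_aux hq hy h0 hq' hy' h0' h

end TD2

end Pool.Agent.Lib.H45EHM
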